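import Pool.Agent.Work.MP_bfb3ed_al.Lift

/-!
Covering groups of `SL(2, ℝ)`: countability of the kernel of a covering homomorphism of a connected
group, surjectivity, and the embedding into the permutations of the natural numbers.
-/

set_option autoImplicit false

open unitInterval Matrix Topology
open scoped Pointwise

namespace Pool.Agent.Work.MP_bfb3ed_al

namespace Covers

open Lift

/-- a connected locally compact group is sigma compact -/
theorem sigmaCompact_of_connected (G : Type*) [Group G] [TopologicalSpace G]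
    [IsTopologicalGroup G] [ConnectedSpace G] [WeaklyLocallyCompactSpace G] :
    SigmaCompactSpace G := by
  obtain ⟨L, hL, hL1⟩ := exists_compact_mem_nhds (1 : G)
  let K : Set G := L ∪ L⁻¹
  have hK : IsCompact K := hL.union hL.inv
  have hpow : ∀ n : ℕ, IsCompact (K ^ n) := by
    intro n
    induction n with
    | zero => rw [pow_zero]; exact isCompact_singleton
    | succ n ih => rw [pow_succ]; exact ih.mul hK
  have hKinv : K⁻¹ = K := by
    simp only [K, Set.union_inv, inv_inv, Set.union_comm]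
  let H : Subgroup G :=
    { carrier := ⋃ n : ℕ, K ^ n
      mul_mem' := by
        intro a b ha hb
        obtain ⟨n, hn⟩ := Set.mem_iUnion.1 ha
        obtain ⟨m, hm⟩ := Set.mem_iUnion.1 hb
        refine Set.mem_iUnion.2 ⟨n + m, ?_⟩
        rw [pow_add]
        exact Set.mul_mem_mul hn hm
      one_mem' := by
        refine Set.mem_iUnion.2 ⟨0, ?_⟩
        rw [pow_zero]
        exact Set.mem_one.2 rfl
      inv_mem' := by
        intro a ha
        obtain ⟨n, hn⟩ := Set.mem_iUnion.1 ha
        refine Set.mem_iUnion.2 ⟨n, ?_⟩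
        have h1 : a⁻¹ ∈ (K ^ n)⁻¹ := Set.inv_mem_inv.2 hn
        rwa [← inv_pow, hKinv] at h1 }
  have hopen : IsOpen (H : Set G) := by
    apply Subgroup.isOpen_of_mem_nhds H (g := 1)
    refine Filter.mem_of_superset hL1 ?_
    intro x hx
    refine Set.mem_iUnion.2 ⟨1, ?_⟩
    rw [pow_one]
    exact Or.inl hx
  have hclosed : IsClosed (H : Set G) := H.isClosed_of_isOpen hopen
  have huniv : (H : Set G) = Set.univ :=
    IsClopen.eq_univ ⟨hclosed, hopen⟩ ⟨1, H.one_mem⟩
  exact SigmaCompactSpace_iff_exists_compact_covering.2 ⟨fun n => K ^ n, hpow, huniv⟩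

/-- the Iwasawa parametrisation -/
noncomputable def iw (p : ℝ × ℝ × ℝ) : SL :=
  ⟨!![Real.exp p.2.1 * Real.cos (Real.pi * p.1),
      p.2.2 * Real.cos (Real.pi * p.1) - Real.exp (-p.2.1) * Real.sin (Real.pi * p.1);
      Real.exp p.2.1 * Real.sin (Real.pi * p.1),
      p.2.2 * Real.sin (Real.pi * p.1) + Real.exp (-p.2.1) * Real.cos (Real.pi * p.1)], by
    rw [Matrix.det_fin_two_of]
    have h := Real.sin_sq_add_cos_sq (Real.pi * p.1)
    have h2 : Real.exp p.2.1 * Real.exp (-p.2.1) = 1 := by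
      rw [← Real.exp_add]; simp
    linear_combination (Real.exp p.2.1 * Real.exp (-p.2.1)) * h + h2⟩

theorem continuous_iw : Continuous iw := by
  refine Continuous.subtype_mk ?_ _
  refine continuous_matrix fun i j => ?_
  fin_cases i <;> fin_cases j <;> simp <;> fun_prop

theorem iw_zero : iw 0 = 1 := by
  ext i j
  fin_cases i <;> fin_cases j <;> simp [iw]

theorem iw_surjective : Function.Surjective iw := by
  intro M
  have hc0 : toC (fun i => M.1 i 0) ≠ 0 := by
    apply toC_ne
    intro h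
    have d := Matrix.det_fin_two M.1
    rw [M.2] at d
    have h0 : M.1 0 0 = 0 := congrFun h 0
    have h1 : M.1 1 0 = 0 := congrFun h 1
    rw [h0, h1] at d
    simp at d
  set z := toC (fun i => M.1 i 0) with hz
  have hr : 0 < ‖z‖ := norm_pos_iff.2 hc0
  set t := Complex.arg z with ht
  have hre : ‖z‖ * Real.cos t = M.1 0 0 := by
    rw [ht, Complex.norm_mul_cos_arg]
    rfl
  have him : ‖z‖ * Real.sin t = M.1 1 0 := by
    rw [ht, Complex.norm_mul_sin_arg]
    rfl
  have hpt : Real.pi * (t / Real.pi) = t := by field_simp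
  have hsc := Real.sin_sq_add_cos_sq t
  have hd : M.1 0 0 * M.1 1 1 - M.1 0 1 * M.1 1 0 = 1 := by
    have d := Matrix.det_fin_two M.1
    rw [M.2] at d
    exact d.symm
  have he : Real.exp (-Real.log ‖z‖) = ‖z‖⁻¹ := by
    rw [Real.exp_neg, Real.exp_log hr]
  have hd2 : M.1 1 1 * Real.cos t - M.1 0 1 * Real.sin t = ‖z‖⁻¹ := by
    rw [← hre, ← him] at hd
    refine eq_inv_of_mul_eq_one_left ?_
    linear_combination hd
  refine ⟨(t / Real.pi, Real.log ‖z‖, M.1 0 1 * Real.cos t + M.1 1 1 * Real.sin t), ?_⟩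
  ext i j
  fin_cases i <;> fin_cases j
  · simp only [iw, hpt, Real.exp_log hr]
    exact hre
  · simp only [iw, hpt, he]
    show (M.1 0 1 * Real.cos t + M.1 1 1 * Real.sin t) * Real.cos t - ‖z‖⁻¹ * Real.sin t = M.1 0 1
    rw [← hd2]
    linear_combination (M.1 0 1) * hsc
  · simp only [iw, hpt, Real.exp_log hr]
    exact him
  · simp only [iw, hpt, he]
    show (M.1 0 1 * Real.cos t + M.1 1 1 * Real.sin t) * Real.sin t + ‖z‖⁻¹ * Real.cos t = M.1 1 1
    rw [← hd2]
    linear_combination (M.1 1 1) * hsc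

instance : ConnectedSpace SL := iw_surjective.connectedSpace continuous_iw

instance wlc_SL : LocallyCompactSpace SL := by
  have h : IsClosedEmbedding (Subtype.val : SL → Matrix (Fin 2) (Fin 2) ℝ) := by
    refine IsClosed.isClosedEmbedding_subtypeVal ?_
    have : Continuous fun M : Matrix (Fin 2) (Fin 2) ℝ => M.det := Continuous.matrix_det continuous_id
    exact isClosed_eq this continuous_const
  have : LocallyCompactSpace (Matrix (Fin 2) (Fin 2) ℝ) :=
    inferInstanceAs (LocallyCompactSpace (Fin 2 → Fin 2 → ℝ))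
  exact h.locallyCompactSpace

section covering

variable {G : Type*} [Group G] [TopologicalSpace G] [IsTopologicalGroup G] [ConnectedSpace G]
  (π : G →* SL) (hπ : IsCoveringMap π)

include hπ

theorem surj : Function.Surjective π := by
  intro M
  have h1 : IsOpen (π.range : Set SL) := by
    rw [MonoidHom.coe_range, ← Set.image_univ]
    exact hπ.isOpenMap _ isOpen_univ
  have h2 : IsClosed (π.range : Set SL) := π.range.isClosed_of_isOpen h1
  have h3 : (π.range : Set SL) = Set.univ := IsClopen.eq_univ ⟨h2, h1⟩ ⟨1, π.range.one_mem⟩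
  have h4 : M ∈ (π.range : Set SL) := by rw [h3]; trivial
  exact h4

theorem wlc : WeaklyLocallyCompactSpace G := by
  refine ⟨fun x => ?_⟩
  obtain ⟨e, hx, he⟩ := hπ.isLocalHomeomorph x
  obtain ⟨K, hK, hKt, hKc⟩ := local_compact_nhds (x := e x) (n := e.target)
    (e.open_target.mem_nhds (e.map_source hx))
  refine ⟨e.symm '' K, hKc.image_of_continuousOn (e.continuousOn_symm.mono hKt), ?_⟩
  have h1 := e.symm.image_mem_nhds (x := e x) (s := K) (by simpa using e.map_source hx) hK
  rwa [e.left_inv hx] at h1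

theorem countable_ker : Countable π.ker := by
  have := wlc π hπ
  have hs := sigmaCompact_of_connected G
  have hcl : IsClosed ((π.ker : Subgroup G) : Set G) := by
    have : ((π.ker : Subgroup G) : Set G) = π ⁻¹' {1} := by
      ext x
      simp [MonoidHom.mem_ker]
    rw [this]
    exact isClosed_singleton.preimage hπ.continuous
  have hs2 : SigmaCompactSpace π.ker := hcl.sigmaCompactSpace
  have hd : DiscreteTopology (π ⁻¹' {1}) := (hπ 1).discreteTopology_fiber
  have hset : ((π.ker : Subgroup G) : Set G) = π ⁻¹' {1} := by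
    ext x
    simp [MonoidHom.mem_ker]
  have hd2 : DiscreteTopology π.ker := by
    change DiscreteTopology ((π.ker : Subgroup G) : Set G)
    rw [hset]
    exact hd
  exact countable_of_Lindelof_of_discrete

end covering

section core

variable {G : Type*} [Group G] [TopologicalSpace G] [IsTopologicalGroup G]
  {π : G →* SL} (hπ : IsCoveringMap π) {B : Subring ℝ} {g : B →+* C(I, ℝ)}

/-- the path of matrices as a continuous map -/
noncomputable def cpath (A : Gam B g) : C(I, SL) :=
  ⟨fun u => mu B g u A.1, (continuous_mu A.1).subtype_mk _⟩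

theorem cpath_zero (A : Gam B g) : cpath A 0 = π 1 := by
  rw [map_one]
  exact mu_zero A

/-- the lifted path -/
noncomputable def gpath (A : Gam B g) : C(I, G) := hπ.liftPath (cpath A) 1 (cpath_zero A)

theorem gpath_one : gpath hπ (1 : Gam B g) = ContinuousMap.const I 1 := by
  symm
  unfold gpath
  rw [hπ.eq_liftPath_iff']
  refine ⟨?_, rfl⟩
  ext u : 1
  show π 1 = mu B g u (1 : Gam B g).1
  rw [map_one]
  exact (map_one _).symm

theorem gpath_mul (A A' : Gam B g) : gpath hπ (A * A') = gpath hπ A * gpath hπ A' := by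
  symm
  have h1 := fun u => congrFun (hπ.liftPath_lifts (cpath A) 1 (cpath_zero A)) u
  have h2 := fun u => congrFun (hπ.liftPath_lifts (cpath A') 1 (cpath_zero A')) u
  unfold gpath
  rw [hπ.eq_liftPath_iff']
  constructor
  · ext u : 1
    show π (hπ.liftPath (cpath A) 1 _ u * hπ.liftPath (cpath A') 1 _ u) = mu B g u (A * A').1
    rw [map_mul]
    have h3 : mu B g u (A * A').1 = mu B g u A.1 * mu B g u A'.1 := map_mul _ _ _
    rw [h3]
    exact congrArg₂ _ (h1 u) (h2 u)
  · show hπ.liftPath (cpath A) 1 _ 0 * hπ.liftPath (cpath A') 1 _ 0 = 1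
    rw [hπ.liftPath_zero, hπ.liftPath_zero, one_mul]

/-- endpoint homomorphism -/
noncomputable def jc : Gam B g →* G where
  toFun A := gpath hπ A 1
  map_one' := by rw [gpath_one]; rfl
  map_mul' A A' := by rw [gpath_mul]; rfl

theorem pi_jc (A : Gam B g) : π (jc hπ A) = mu B g 1 A.1 :=
  congrFun (hπ.liftPath_lifts (cpath A) 1 (cpath_zero A)) 1

theorem countable_quot' [ConnectedSpace G] (c : SL → ℕ)
    (hg1 : ∀ x : B, g x 1 = (x : ℝ))
    (hc : ∀ M N : SL, c M = c N → ∀ i j,
      ∃ h : (M⁻¹ * N : SL).1 i j ∈ B, g ⟨_, h⟩ 0 = (1 : Matrix (Fin 2) (Fin 2) ℝ) i j) :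
    Countable (G ⧸ (jc hπ (B := B) (g := g)).range) := by
  classical
  have hker := countable_ker π hπ
  have hrep : ∀ m : ℕ, ∃ e : G, (∃ e', c (π e') = m) → c (π e) = m := by
    intro m
    by_cases h : ∃ e', c (π e') = m
    · obtain ⟨e', he'⟩ := h
      exact ⟨e', fun _ => he'⟩
    · exact ⟨1, fun h' => absurd h' h⟩
  choose rep hr using hrep
  apply Function.Surjective.countable (α := ℕ × π.ker)
    (f := fun p => (QuotientGroup.mk (rep p.1 * p.2) : G ⧸ (jc hπ (B := B) (g := g)).range))
  intro q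
  induction q using QuotientGroup.induction_on with
  | H e' =>
    have h1 : c (π (rep (c (π e')))) = c (π e') := hr _ ⟨e', rfl⟩
    set e := rep (c (π e')) with he
    obtain ⟨A, hA⟩ := exists_gam hg1 ((π e)⁻¹ * π e') (hc _ _ h1)
    have hk : e⁻¹ * e' * (jc hπ A)⁻¹ ∈ π.ker := by
      rw [MonoidHom.mem_ker, map_mul, map_inv, pi_jc, hA, map_mul, map_inv, mul_inv_cancel]
    refine ⟨(c (π e'), ⟨_, hk⟩), ?_⟩
    show (QuotientGroup.mk (e * (e⁻¹ * e' * (jc hπ A)⁻¹)) :
      G ⧸ (jc hπ (B := B) (g := g)).range) = QuotientGroup.mk e'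
    rw [QuotientGroup.eq]
    refine ⟨A, ?_⟩
    group

theorem faithful' [ConnectedSpace G] (hg1 : ∀ x : B, g x 1 = (x : ℝ)) :
    Function.Injective (MulAction.toPermHom G (G ⧸ (jc hπ (B := B) (g := g)).range)) := by
  rw [← MonoidHom.ker_eq_bot_iff, ← Subgroup.normalCore_eq_ker, eq_bot_iff]
  intro e he
  rw [Subgroup.mem_bot]
  have he' : ∀ b : G, b * e * b⁻¹ ∈ (jc hπ (B := B) (g := g)).range := he
  by_cases h1 : π e = 1 ∨ π e = -1
  · obtain ⟨A, hA⟩ := he' 1
    rw [one_mul, inv_one, mul_one] at hA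
    have h3 := pi_jc hπ A
    rw [hA] at h3
    rw [h3] at h1
    have h4 := gam_triv hg1 A h1
    rw [← hA, h4, map_one]
  · exfalso
    rw [not_or] at h1
    obtain ⟨P, hP⟩ := exists_conj (π e) h1.1 h1.2
    obtain ⟨h, hh⟩ := surj π hπ P
    obtain ⟨A, hA⟩ := he' h⁻¹
    rw [inv_inv] at hA
    have h4 := pi_jc hπ A
    rw [hA, map_mul, map_mul, map_inv, hh] at h4
    have h5 : (mu B g 1 A.1).1 0 0 = 0 := by rw [← h4, hP]
    rw [mu_one_apply hg1] at h5
    have h6 : A.1.1 0 0 = 0 := Subtype.ext (by rw [h5]; rfl)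
    have h7 := gam_zero A
    have h9 : g 0 = 0 := map_zero g
    have h8 : (0 : C(I, ℝ)) 0 = 0 := rfl
    rw [h6, h9, h8] at h7
    norm_num at h7

end core

theorem cover_of_core
    (B : Subring ℝ) (g : B →+* C(I, ℝ)) (c : Matrix.SpecialLinearGroup (Fin 2) ℝ → ℕ)
    (hg1 : ∀ x : B, g x 1 = (x : ℝ))
    (hc : ∀ M N : Matrix.SpecialLinearGroup (Fin 2) ℝ, c M = c N → ∀ i j,
      ∃ h : (M⁻¹ * N : Matrix.SpecialLinearGroup (Fin 2) ℝ).1 i j ∈ B,
        g ⟨_, h⟩ 0 = (1 : Matrix (Fin 2) (Fin 2) ℝ) i j)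
    {G : Type*} [Group G] [TopologicalSpace G] [IsTopologicalGroup G] [ConnectedSpace G]
    (π : G →* Matrix.SpecialLinearGroup (Fin 2) ℝ) (hπ : IsCoveringMap π) :
    ∃ φ : G →* Equiv.Perm ℕ, Function.Injective φ := by
  have := countable_quot' hπ c hg1 hc
  exact exists_hom _ (faithful' hπ hg1)

end Covers

end Pool.Agent.Work.MP_bfb3ed_al
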