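import Pool.Agent.Work.MP_bfb3ed_al.Core

set_option autoImplicit false

open Polynomial Topology unitInterval Filter

namespace Pool.Agent.Work.MP_bfb3ed_al

/-! ### gluing -/

/-- the glued function on the line -/
noncomputable def HH (f : ℕ → C(I, ℝ)) (t : ℝ) : ℝ :=
  f ⌊t⌋₊ (Set.projIcc (0:ℝ) 1 zero_le_one (t - ⌊t⌋₊))

lemma continuous_HH (f : ℕ → C(I, ℝ)) (hf : ∀ q, f q 1 = f (q + 1) 0) : Continuous (HH f) := by
  rw [continuous_iff_continuousAt]
  intro t0
  have hcont : ∀ (q : ℕ) (a : ℝ), Continuous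
      (fun t : ℝ => f q (Set.projIcc (0:ℝ) 1 zero_le_one (t - a))) := by
    intro q a
    exact (f q).continuous.comp (continuous_projIcc.comp (continuous_id.sub continuous_const))
  rcases lt_or_ge t0 1 with h | h
  · have h1 : HH f =ᶠ[𝓝 t0] fun t : ℝ => f 0 (Set.projIcc (0:ℝ) 1 zero_le_one (t - (0:ℕ))) := by
      filter_upwards [isOpen_Iio.mem_nhds h] with t ht
      have : ⌊t⌋₊ = 0 := Nat.floor_eq_zero.2 ht
      rw [HH, this]
    exact (hcont 0 _).continuousAt.congr h1.symm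
  · obtain ⟨n, hn⟩ : ∃ n, ⌊t0⌋₊ = n + 1 := by
      refine ⟨⌊t0⌋₊ - 1, ?_⟩
      have := (Nat.one_le_floor_iff t0).2 h
      omega
    have h2 : (n : ℝ) + 1 ≤ t0 := by
      have := Nat.floor_le (zero_le_one.trans h)
      rw [hn] at this
      exact_mod_cast this
    have h3 : t0 < (n : ℝ) + 1 + 1 := by
      have := Nat.lt_floor_add_one t0
      rw [hn] at this
      exact_mod_cast this
    have h1 : HH f =ᶠ[𝓝 t0] fun t : ℝ => f n (Set.projIcc (0:ℝ) 1 zero_le_one (t - (n : ℕ))) +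
        f (n + 1) (Set.projIcc (0:ℝ) 1 zero_le_one (t - ((n + 1 : ℕ) : ℝ))) - f (n + 1) 0 := by
      filter_upwards [isOpen_Ioo.mem_nhds (show t0 ∈ Set.Ioo (n : ℝ) (n + 1 + 1) from
        ⟨by linarith, h3⟩)] with t ht
      have ht0 : 0 ≤ t := (Nat.cast_nonneg n).trans ht.1.le
      rcases lt_or_ge t (n + 1) with h4 | h4
      · have h5 : ⌊t⌋₊ = n := by
          rw [Nat.floor_eq_iff ht0]
          exact ⟨ht.1.le, h4⟩
        have h6 : Set.projIcc (0:ℝ) 1 zero_le_one (t - ((n + 1 : ℕ) : ℝ)) = 0 := by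
          apply Set.projIcc_of_le_left
          push_cast
          linarith
        rw [HH, h5, h6]
        ring
      · have h5 : ⌊t⌋₊ = n + 1 := by
          rw [Nat.floor_eq_iff ht0]
          push_cast
          exact ⟨h4, ht.2⟩
        have h6 : Set.projIcc (0:ℝ) 1 zero_le_one (t - (n : ℝ)) = 1 := by
          apply Set.projIcc_of_right_le
          linarith
        rw [HH, h5, h6, hf n]
        ring
    refine ContinuousAt.congr ?_ h1.symm
    exact (((hcont n _).add (hcont (n + 1) _)).sub continuous_const).continuousAt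

/-- the glued function on the interval -/
noncomputable def GG (x : ℝ) (f : ℕ → C(I, ℝ)) (u : I) : ℝ :=
  if (u : ℝ) < 1 then HH f ((u : ℝ) / (1 - u)) else x

lemma continuous_GG (x : ℝ) (f : ℕ → C(I, ℝ)) (hf : ∀ q, f q 1 = f (q + 1) 0)
    (hx : Tendsto f atTop (𝓝 (ContinuousMap.const I x))) : Continuous (GG x f) := by
  rw [continuous_iff_continuousAt]
  intro u0
  rcases lt_or_ge (u0 : ℝ) 1 with h | h
  · have hopen : IsOpen {u : I | (u : ℝ) < 1} := isOpen_lt continuous_subtype_val continuous_const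
    have h1 : GG x f =ᶠ[𝓝 u0] fun u : I => HH f ((u : ℝ) / (1 - u)) := by
      filter_upwards [hopen.mem_nhds h] with u hu
      rw [GG, if_pos hu]
    refine ContinuousAt.congr ?_ h1.symm
    refine (continuous_HH f hf).continuousAt.comp ?_
    refine ContinuousAt.div continuous_subtype_val.continuousAt
      (continuous_const.sub continuous_subtype_val).continuousAt ?_
    have : (0:ℝ) < 1 - u0 := by linarith
    exact this.ne'
  · have hu0 : GG x f u0 = x := by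
      rw [GG, if_neg (not_lt.2 h)]
    rw [ContinuousAt, hu0, Metric.tendsto_nhds]
    intro ε hε
    obtain ⟨N, hN⟩ := Metric.tendsto_atTop.1 hx ε hε
    have hopen : IsOpen {u : I | (N : ℝ) / (N + 1) < (u : ℝ)} :=
      isOpen_lt continuous_const continuous_subtype_val
    have hN1 : (0:ℝ) < (N : ℝ) + 1 := by positivity
    have hmem : u0 ∈ {u : I | (N : ℝ) / (N + 1) < (u : ℝ)} := by
      show (N : ℝ) / (N + 1) < (u0 : ℝ)
      rw [div_lt_iff₀ hN1]
      nlinarith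
    filter_upwards [hopen.mem_nhds hmem] with u hu
    by_cases h2 : (u : ℝ) < 1
    · rw [GG, if_pos h2]
      have hu' : (N : ℝ) / (N + 1) < (u : ℝ) := hu
      rw [div_lt_iff₀ hN1] at hu'
      have h3 : (0:ℝ) < 1 - u := by linarith
      have h4 : (N : ℝ) ≤ (u : ℝ) / (1 - u) := by
        rw [le_div_iff₀ h3]
        nlinarith
      have h5 : N ≤ ⌊(u : ℝ) / (1 - u)⌋₊ := Nat.le_floor h4
      have h6 := hN _ h5
      rw [ContinuousMap.dist_lt_iff hε] at h6
      exact h6 _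
    · rw [GG, if_neg h2, dist_self]
      exact hε

/-- compatible sequences of residues -/
def PP (Φ : ℕ → (ℝ →+* L)) : Subring (ℝ × (ℕ → C(I, ℝ))) where
  carrier := {p | (∀ q, rel (Φ q p.1) (p.2 q) ∧ p.2 q 1 = p.2 (q + 1) 0) ∧
    Tendsto p.2 atTop (𝓝 (ContinuousMap.const I p.1))}
  mul_mem' := by
    rintro p p' ⟨h1, h2⟩ ⟨h1', h2'⟩
    refine ⟨fun q => ⟨?_, ?_⟩, ?_⟩
    · show rel (Φ q (p.1 * p'.1)) (p.2 q * p'.2 q)
      rw [map_mul]
      exact rel_mul (h1 q).1 (h1' q).1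
    · show (p.2 q * p'.2 q) 1 = (p.2 (q + 1) * p'.2 (q + 1)) 0
      rw [ContinuousMap.mul_apply, ContinuousMap.mul_apply, (h1 q).2, (h1' q).2]
    · exact h2.mul h2'
  one_mem' := by
    refine ⟨fun q => ⟨?_, rfl⟩, tendsto_const_nhds⟩
    show rel (Φ q 1) 1
    rw [map_one]
    exact rel_one
  add_mem' := by
    rintro p p' ⟨h1, h2⟩ ⟨h1', h2'⟩
    refine ⟨fun q => ⟨?_, ?_⟩, ?_⟩
    · show rel (Φ q (p.1 + p'.1)) (p.2 q + p'.2 q)
      rw [map_add]
      exact rel_add (h1 q).1 (h1' q).1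
    · show (p.2 q + p'.2 q) 1 = (p.2 (q + 1) + p'.2 (q + 1)) 0
      rw [ContinuousMap.add_apply, ContinuousMap.add_apply, (h1 q).2, (h1' q).2]
    · exact h2.add h2'
  zero_mem' := by
    refine ⟨fun q => ⟨?_, rfl⟩, tendsto_const_nhds⟩
    show rel (Φ q 0) 0
    rw [map_zero]
    exact rel_zero
  neg_mem' := by
    rintro p ⟨h1, h2⟩
    refine ⟨fun q => ⟨?_, ?_⟩, ?_⟩
    · show rel (Φ q (-p.1)) (-p.2 q)
      rw [map_neg]
      exact rel_neg (h1 q).1
    · show (-p.2 q) 1 = (-p.2 (q + 1)) 0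
      rw [ContinuousMap.neg_apply, ContinuousMap.neg_apply, (h1 q).2]
    · exact h2.neg

/-- gluing as a ring homomorphism -/
noncomputable def gPP (Φ : ℕ → (ℝ →+* L)) : PP Φ →+* C(I, ℝ) where
  toFun p := ⟨GG p.1.1 p.1.2, continuous_GG _ _ (fun q => (p.2.1 q).2) p.2.2⟩
  map_one' := by
    ext u
    show GG 1 1 u = 1
    unfold GG HH
    split_ifs <;> simp
  map_mul' := by
    intro p p'
    ext u
    show GG (p.1.1 * p'.1.1) (p.1.2 * p'.1.2) u = GG p.1.1 p.1.2 u * GG p'.1.1 p'.1.2 u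
    unfold GG HH
    split_ifs <;> simp
  map_zero' := by
    ext u
    show GG 0 0 u = 0
    unfold GG HH
    split_ifs <;> simp
  map_add' := by
    intro p p'
    ext u
    show GG (p.1.1 + p'.1.1) (p.1.2 + p'.1.2) u = GG p.1.1 p.1.2 u + GG p'.1.1 p'.1.2 u
    unfold GG HH
    split_ifs <;> simp

lemma gPP_one (Φ : ℕ → (ℝ →+* L)) (p : PP Φ) : gPP Φ p 1 = p.1.1 := by
  show GG p.1.1 p.1.2 1 = p.1.1
  unfold GG
  simp

lemma gPP_zero (Φ : ℕ → (ℝ →+* L)) (p : PP Φ) : gPP Φ p 0 = p.1.2 0 0 := by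
  show GG p.1.1 p.1.2 0 = p.1.2 0 0
  unfold GG HH
  simp

/-! ### the coloring -/

lemma exists_color (φ : ℝ →+* L) : ∃ c : Matrix.SpecialLinearGroup (Fin 2) ℝ → ℕ,
    ∀ M N, c M = c N → ∀ i j, v K0 (φ ((M⁻¹ * N).1 i j) - φ ((1 : Matrix (Fin 2) (Fin 2) ℝ) i j)) < 1 := by
  have h1 : ∀ M : Matrix.SpecialLinearGroup (Fin 2) ℝ, ∃ n : ℕ, ∀ i j,
      v K0 (eps K0 ^ n * φ (M.1 i j)) < 1 := by
    intro M
    choose n hn using fun i j => exists_pow_lt K0 (φ (M.1 i j))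
    refine ⟨∑ i, ∑ j, n i j, fun i j => ?_⟩
    have h2 : n i j ≤ ∑ i, ∑ j, n i j :=
      (Finset.single_le_sum (f := fun j => n i j) (fun _ _ => Nat.zero_le _) (Finset.mem_univ j)).trans
        (Finset.single_le_sum (f := fun i => ∑ j, n i j) (fun _ _ => Nat.zero_le _) (Finset.mem_univ i))
    obtain ⟨k, hk⟩ := Nat.exists_eq_add_of_le h2
    rw [hk, pow_add, mul_assoc, mul_comm (eps K0 ^ k), ← mul_assoc, map_mul]
    refine mul_lt_one_of_lt_of_le (hn i j) ?_
    rw [map_pow]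
    exact pow_le_one' (v_eps K0).le k
  choose n hn using h1
  have h3 : ∀ M : Matrix.SpecialLinearGroup (Fin 2) ℝ, ∀ i j, ∃ d : DD K0,
      v K0 (φ (M.1 i j) - d) ≤ v K0 (eps K0) ^ n M := by
    intro M i j
    obtain ⟨d, hd, hd2⟩ := approx K0 (φ (M.1 i j)) (n M)
    exact ⟨⟨d, hd⟩, hd2⟩
  choose D hD using h3
  have hcount : Countable (DD K0) := (countable_DD K0).to_subtype
  obtain ⟨enc, henc⟩ := exists_injective_nat (ℕ × (Fin 2 → Fin 2 → DD K0))
  refine ⟨fun M => enc (n M, D M), fun M N h i j => ?_⟩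
  have h4 := henc h
  have hnn : n M = n N := congrArg Prod.fst h4
  have hDD : D M = D N := congrArg Prod.snd h4
  have hΔ : ∀ k j, v K0 (φ (N.1 k j) - φ (M.1 k j)) ≤ v K0 (eps K0) ^ n M := by
    intro k j
    have h5 : φ (N.1 k j) - φ (M.1 k j) = (φ (N.1 k j) - D N k j) - (φ (M.1 k j) - D M k j) := by
      rw [hDD]
      ring
    rw [h5]
    refine Valuation.map_sub_le _ ?_ (hD M k j)
    rw [hnn]
    exact hD N k j
  have hinv : ∀ i k, v K0 (φ (M⁻¹.1 i k)) * v K0 (eps K0) ^ n M < 1 := by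
    intro i k
    have h6 : ∀ i j, v K0 (φ (M.1 i j)) * v K0 (eps K0) ^ n M < 1 := by
      intro i j
      have := hn M i j
      rwa [map_mul, map_pow, mul_comm] at this
    rw [Matrix.SpecialLinearGroup.SL2_inv_expl]
    fin_cases i <;> fin_cases k <;> simp [Valuation.map_neg] <;> exact h6 _ _
  have hdiff : φ ((M⁻¹ * N).1 i j) - φ ((1 : Matrix (Fin 2) (Fin 2) ℝ) i j) =
      ∑ k, φ (M⁻¹.1 i k) * (φ (N.1 k j) - φ (M.1 k j)) := by
    have h7 : (1 : Matrix (Fin 2) (Fin 2) ℝ) = M⁻¹.1 * M.1 := by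
      rw [← Matrix.SpecialLinearGroup.coe_mul, inv_mul_cancel]
      rfl
    rw [h7, Matrix.SpecialLinearGroup.coe_mul, Matrix.mul_apply, Matrix.mul_apply, map_sum, map_sum,
      ← Finset.sum_sub_distrib]
    refine Finset.sum_congr rfl (fun k _ => ?_)
    rw [map_mul, map_mul]
    ring
  rw [hdiff, Fin.sum_univ_two]
  refine Valuation.map_add_lt _ ?_ ?_
  · rw [map_mul]
    exact (mul_le_mul_right (hΔ _ _) _).trans_lt (hinv _ _)
  · rw [map_mul]
    exact (mul_le_mul_right (hΔ _ _) _).trans_lt (hinv _ _)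

/-- elements which are good at one junction -/
def BB (Φ : ℕ → (ℝ →+* L)) (q : ℕ) : Subring ℝ where
  carrier := {x | ∃ f f', rel (Φ q x) f ∧ rel (Φ (q + 1) x) f' ∧ f 1 = f' 0}
  mul_mem' := by
    rintro x y ⟨f, f', h1, h2, h3⟩ ⟨g, g', k1, k2, k3⟩
    refine ⟨f * g, f' * g', ?_, ?_, ?_⟩
    · rw [map_mul]
      exact rel_mul h1 k1
    · rw [map_mul]
      exact rel_mul h2 k2
    · rw [ContinuousMap.mul_apply, ContinuousMap.mul_apply, h3, k3]
  one_mem' := ⟨1, 1, by rw [map_one]; exact rel_one, by rw [map_one]; exact rel_one, rfl⟩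
  add_mem' := by
    rintro x y ⟨f, f', h1, h2, h3⟩ ⟨g, g', k1, k2, k3⟩
    refine ⟨f + g, f' + g', ?_, ?_, ?_⟩
    · rw [map_add]
      exact rel_add h1 k1
    · rw [map_add]
      exact rel_add h2 k2
    · rw [ContinuousMap.add_apply, ContinuousMap.add_apply, h3, k3]
  zero_mem' := ⟨0, 0, by rw [map_zero]; exact rel_zero, by rw [map_zero]; exact rel_zero, rfl⟩
  neg_mem' := by
    rintro x ⟨f, f', h1, h2, h3⟩
    refine ⟨-f, -f', ?_, ?_, ?_⟩
    · rw [map_neg]
      exact rel_neg h1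
    · rw [map_neg]
      exact rel_neg h2
    · rw [ContinuousMap.neg_apply, ContinuousMap.neg_apply, h3]

lemma mem_of_entries (R : Subring ℝ) (M N : Matrix.SpecialLinearGroup (Fin 2) ℝ)
    (hM : ∀ i j, M.1 i j ∈ R) (hN : ∀ i j, N.1 i j ∈ R) (i j : Fin 2) : (M⁻¹ * N).1 i j ∈ R := by
  have hinv : ∀ i k, M⁻¹.1 i k ∈ R := by
    intro i k
    rw [Matrix.SpecialLinearGroup.SL2_inv_expl]
    fin_cases i <;> fin_cases k <;> simp [hM]
  rw [Matrix.SpecialLinearGroup.coe_mul, Matrix.mul_apply]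
  exact R.sum_mem (fun k _ => R.mul_mem (hinv _ _) (hN _ _))

theorem core_of_Phi (Φ : ℕ → (ℝ →+* L)) (hΦ : ∀ y, Good (fun q => Φ q y) y) :
    ∃ (B : Subring ℝ) (g : B →+* C(I, ℝ)) (c : Matrix.SpecialLinearGroup (Fin 2) ℝ → ℕ),
      (∀ x : B, g x 1 = (x : ℝ)) ∧
      (∀ M N : Matrix.SpecialLinearGroup (Fin 2) ℝ, c M = c N → ∀ i j,
        ∃ h : (M⁻¹ * N : Matrix.SpecialLinearGroup (Fin 2) ℝ).1 i j ∈ B,
          g ⟨_, h⟩ 0 = (1 : Matrix (Fin 2) (Fin 2) ℝ) i j) := by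
  let ρ : PP Φ →+* ℝ := (RingHom.fst _ _).comp (PP Φ).subtype
  have hρ : Function.Injective ρ := by
    intro p p' h
    apply Subtype.ext
    refine Prod.ext h (funext fun q => ?_)
    have h1 := (p.2.1 q).1
    have h2 := (p'.2.1 q).1
    have h3 : p.1.1 = p'.1.1 := h
    rw [h3] at h1
    exact rel_unique h1 h2
  let e : PP Φ ≃+* ρ.range := RingEquiv.ofBijective ρ.rangeRestrict
    ⟨fun a b h => hρ (congrArg Subtype.val h), ρ.rangeRestrict_surjective⟩
  have he : ∀ x : ρ.range, (e.symm x).1.1 = x := by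
    intro x
    have h1 := e.apply_symm_apply x
    exact congrArg Subtype.val h1
  choose c0 hc0 using fun q => exists_color (Φ q)
  have hQ : ∀ M : Matrix.SpecialLinearGroup (Fin 2) ℝ, ∃ Q : ℕ, ∀ q ≥ Q, ∀ i j, M.1 i j ∈ BB Φ q := by
    intro M
    have h1 : ∀ i j, ∀ᶠ q in atTop, M.1 i j ∈ BB Φ q := by
      intro i j
      obtain ⟨f, hf, -⟩ := hΦ (M.1 i j)
      filter_upwards [hf, (tendsto_add_atTop_nat 1).eventually hf] with q h1 h2
      exact ⟨f q, f (q + 1), h1.1, h2.1, h1.2⟩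
    have h2 : ∀ᶠ q in atTop, ∀ i j, M.1 i j ∈ BB Φ q := by
      rw [eventually_all]
      intro i
      rw [eventually_all]
      exact h1 i
    exact eventually_atTop.1 h2
  choose Q hQ using hQ
  refine ⟨ρ.range, (gPP Φ).comp (e.symm : ρ.range →+* PP Φ),
    fun M => Encodable.encode (Q M :: (List.range (Q M + 2)).map (fun q => c0 q M)),
    fun x => ?_, fun M N h i j => ?_⟩
  · show gPP Φ (e.symm x) 1 = x
    rw [gPP_one, he]
  · have h1 := Encodable.encode_injective h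
    rw [List.cons.injEq] at h1
    obtain ⟨hQQ, hl⟩ := h1
    rw [← hQQ, List.map_inj_left] at hl
    have hc : ∀ q < Q M + 2, c0 q M = c0 q N := fun q hq => hl q (List.mem_range.2 hq)
    set x : ℝ := (M⁻¹ * N).1 i j with hx
    -- the constant residue
    obtain ⟨δ, hδ⟩ : ∃ δ : ℤ, (1 : Matrix (Fin 2) (Fin 2) ℝ) i j = (δ : ℝ) := by
      by_cases hij : i = j
      · exact ⟨1, by rw [hij, Matrix.one_apply_eq]; simp⟩
      · exact ⟨0, by rw [Matrix.one_apply_ne hij]; simp⟩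
    have hsmall : ∀ q < Q M + 2, rel (Φ q x) ((δ : S) : C(I, ℝ)) := by
      intro q hq
      have h2 := hc0 q M N (hc q hq) i j
      refine ⟨(δ : S).2, ?_⟩
      have h3 : ιS ⟨((δ : S) : C(I, ℝ)), (δ : S).2⟩ = Φ q ((1 : Matrix (Fin 2) (Fin 2) ℝ) i j) := by
        rw [hδ]
        exact (map_intCast ιS δ).trans (map_intCast (Φ q) δ).symm
      rw [h3]
      exact h2
    have hall : ∀ q, x ∈ BB Φ q := by
      intro q
      rcases lt_or_ge q (Q M) with hq | hq
      · refine ⟨_, _, hsmall q (by omega), hsmall (q + 1) (by omega), ?_⟩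
        simp
      · exact mem_of_entries (BB Φ q) M N (hQ M q hq) (hQ N q (by rw [← hQQ]; exact hq)) i j
    choose f f' hf1 hf2 hf3 using hall
    have hf4 : ∀ q, f' q = f (q + 1) := fun q => rel_unique (hf2 q) (hf1 (q + 1))
    have hlim : Tendsto f atTop (𝓝 (ContinuousMap.const I x)) := by
      obtain ⟨f2, h2, h3⟩ := hΦ x
      refine h3.congr' ?_
      filter_upwards [h2] with q hq
      exact rel_unique hq.1 (hf1 q)
    let p : PP Φ := ⟨(x, f), fun q => ⟨hf1 q, by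
      show f q 1 = f (q + 1) 0
      rw [← hf4]
      exact hf3 q⟩, hlim⟩
    have hxB : x ∈ ρ.range := ⟨p, rfl⟩
    refine ⟨hxB, ?_⟩
    show gPP Φ (e.symm ⟨x, hxB⟩) 0 = _
    have h5 : e.symm ⟨x, hxB⟩ = p := by
      rw [RingEquiv.symm_apply_eq]
      rfl
    rw [h5, gPP_zero]
    have h6 : f 0 = ((δ : S) : C(I, ℝ)) := rel_unique (hf1 0) (hsmall 0 (by omega))
    show f 0 0 = _
    rw [h6, hδ]
    simp

end Pool.Agent.Work.MP_bfb3ed_al
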