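import Mathlib

set_option autoImplicit false

open unitInterval Matrix

namespace Pool.Agent.Work.MP_bfb3ed_al

namespace Lift

/-- Two by two real matrices of determinant one. -/
abbrev SL : Type := Matrix.SpecialLinearGroup (Fin 2) ℝ

/-- Unit vector of angle `π x`. -/
noncomputable def vv (x : ℝ) : Fin 2 → ℝ :=
  ![Real.cos (Real.pi * x), Real.sin (Real.pi * x)]

/-- `w` lies on the line of angle `π y`. -/
def Par (w : Fin 2 → ℝ) (y : ℝ) : Prop :=
  w 0 * Real.sin (Real.pi * y) - w 1 * Real.cos (Real.pi * y) = 0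

/-- `f` lies over the matrix `M`. -/
def Over (M : Matrix (Fin 2) (Fin 2) ℝ) (f : ℝ → ℝ) : Prop :=
  ∀ x, Par (M.mulVec (vv x)) (f x)

theorem vv_zero (x : ℝ) : vv x 0 = Real.cos (Real.pi * x) := rfl
theorem vv_one (x : ℝ) : vv x 1 = Real.sin (Real.pi * x) := rfl

theorem vv_ne (x : ℝ) : vv x ≠ 0 := by
  intro h
  have h0 := congrFun h 0
  have h1 := congrFun h 1
  rw [vv_zero] at h0
  rw [vv_one] at h1
  have := Real.sin_sq_add_cos_sq (Real.pi * x)
  rw [h0, h1] at this
  norm_num at this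

theorem par_self (x : ℝ) : Par (vv x) x := by
  unfold Par
  rw [vv_zero, vv_one]; ring

theorem par_smul {w : Fin 2 → ℝ} {y : ℝ} (h : Par w y) (c : ℝ) : Par (c • w) y := by
  unfold Par at h ⊢
  simp only [Pi.smul_apply, smul_eq_mul]
  linear_combination c * h

theorem par_eq {w : Fin 2 → ℝ} {y : ℝ} (h : Par w y) : ∃ c : ℝ, w = c • vv y := by
  refine ⟨w 0 * Real.cos (Real.pi * y) + w 1 * Real.sin (Real.pi * y), ?_⟩
  unfold Par at h
  have h2 := Real.sin_sq_add_cos_sq (Real.pi * y)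
  ext i
  fin_cases i
  · simp only [Fin.zero_eta, Pi.smul_apply, smul_eq_mul, vv_zero]
    linear_combination (-w 0) * h2 + Real.sin (Real.pi * y) * h
  · simp only [Fin.mk_one, Pi.smul_apply, smul_eq_mul, vv_one]
    linear_combination (-w 1) * h2 - Real.cos (Real.pi * y) * h

theorem par_vv {y y' : ℝ} (h : Par (vv y) y') : ∃ n : ℤ, y = y' + n := by
  unfold Par at h
  rw [vv_zero, vv_one] at h
  have h1 : Real.sin (Real.pi * (y - y')) = 0 := by
    rw [mul_sub, Real.sin_sub]; linarith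
  obtain ⟨n, hn⟩ := Real.sin_eq_zero_iff.1 h1
  refine ⟨n, ?_⟩
  have hpi : Real.pi ≠ 0 := Real.pi_ne_zero
  have : (n : ℝ) = y - y' := by
    apply mul_right_cancel₀ hpi
    rw [hn]; ring
  linarith

theorem par_par {w : Fin 2 → ℝ} (hw : w ≠ 0) {y y' : ℝ} (h : Par w y) (h' : Par w y') :
    ∃ n : ℤ, y = y' + n := by
  obtain ⟨c, hc⟩ := par_eq h
  have hc0 : c ≠ 0 := by
    rintro rfl
    apply hw
    rw [hc, zero_smul]
  apply par_vv
  have h2 := par_smul h' c⁻¹
  rw [hc, smul_smul, inv_mul_cancel₀ hc0, one_smul] at h2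
  exact h2

theorem par_comp {M N : Matrix (Fin 2) (Fin 2) ℝ} {x y t : ℝ} (h : Par (N.mulVec (vv x)) y)
    (h' : Par (M.mulVec (vv y)) t) : Par ((M * N).mulVec (vv x)) t := by
  obtain ⟨c, hc⟩ := par_eq h
  rw [← Matrix.mulVec_mulVec, hc, Matrix.mulVec_smul]
  exact par_smul h' c

theorem over_comp {M N : Matrix (Fin 2) (Fin 2) ℝ} {f g : ℝ → ℝ} (hf : Over M f)
    (hg : Over N g) : Over (M * N) (f ∘ g) := fun x => par_comp (hg x) (hf (g x))

theorem over_one : Over 1 (fun x => x) := fun x => by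
  rw [Matrix.one_mulVec]; exact par_self x

theorem mulVec_ne (M : SL) {w : Fin 2 → ℝ} (hw : w ≠ 0) : M.1.mulVec w ≠ 0 := by
  intro h
  apply hw
  have h1 : (M⁻¹ * M : SL).1.mulVec w = 0 := by
    rw [Matrix.SpecialLinearGroup.coe_mul, ← Matrix.mulVec_mulVec, h, Matrix.mulVec_zero]
  rw [inv_mul_cancel] at h1
  simpa using h1

theorem over_inv {M : SL} {f f' : ℝ → ℝ} (hf : Over M.1 f) (h : ∀ y, f (f' y) = y) :
    Over (M⁻¹ : SL).1 f' := by
  intro y
  have h1 := hf (f' y)
  rw [h y] at h1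
  obtain ⟨c, hc⟩ := par_eq h1
  have hc0 : c ≠ 0 := by
    rintro rfl
    apply mulVec_ne M (vv_ne (f' y))
    rw [hc, zero_smul]
  have h2 : vv (f' y) = c • (M⁻¹ : SL).1.mulVec (vv y) := by
    have h3 : (M⁻¹ * M : SL).1.mulVec (vv (f' y)) = (M⁻¹ : SL).1.mulVec (c • vv y) := by
      rw [Matrix.SpecialLinearGroup.coe_mul, ← Matrix.mulVec_mulVec, hc]
    rw [inv_mul_cancel, Matrix.mulVec_smul] at h3
    simpa using h3
  have h4 : (M⁻¹ : SL).1.mulVec (vv y) = c⁻¹ • vv (f' y) := by
    rw [h2, smul_smul, inv_mul_cancel₀ hc0, one_smul]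
  rw [h4]
  exact par_smul (par_self _) _

/-- integer valued continuous differences are constant -/
theorem const_int {X : Type*} [TopologicalSpace X] [PreconnectedSpace X] [Nonempty X]
    {f f' : X → ℝ} (hf : Continuous f) (hf' : Continuous f')
    (h : ∀ x, ∃ n : ℤ, f x = f' x + n) : ∃ n : ℤ, ∀ x, f x = f' x + n := by
  choose k hk using h
  have hkc : Continuous k := by
    rw [Int.isClosedEmbedding_coe_real.isEmbedding.continuous_iff]
    have : ((fun n : ℤ => (n : ℝ)) ∘ k) = fun x => f x - f' x := by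
      ext x
      simp only [Function.comp_apply]
      linarith [hk x]
    show Continuous ((fun n : ℤ => (n : ℝ)) ∘ k)
    rw [this]
    exact hf.sub hf'
  obtain ⟨x₀⟩ := (inferInstance : Nonempty X)
  refine ⟨k x₀, fun x => ?_⟩
  rw [hk x, PreconnectedSpace.constant inferInstance hkc (x := x) (y := x₀)]

theorem over_diff {M : SL} {f f' : ℝ → ℝ} (hfc : Continuous f) (hfc' : Continuous f')
    (hf : Over M.1 f) (hf' : Over M.1 f') : ∃ n : ℤ, ∀ x, f x = f' x + n :=
  const_int hfc hfc' fun x => par_par (mulVec_ne M (vv_ne x)) (hf x) (hf' x)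

theorem over_unique {M M' : SL} {f : ℝ → ℝ} (hf : Over M.1 f) (hf' : Over M'.1 f) :
    M' = M ∨ M' = -M := by
  have key : ∀ x, (M.1.mulVec (vv x)) 0 * (M'.1.mulVec (vv x)) 1 -
      (M.1.mulVec (vv x)) 1 * (M'.1.mulVec (vv x)) 0 = 0 := by
    intro x
    obtain ⟨c, hc⟩ := par_eq (hf x)
    obtain ⟨c', hc'⟩ := par_eq (hf' x)
    rw [hc, hc']
    simp only [Pi.smul_apply, smul_eq_mul]
    ring
  have k0 := key 0
  have k1 := key (1 / 2)
  have k2 := key (1 / 4)
  have e1 : Real.pi * (1 / 2) = Real.pi / 2 := by ring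
  have e2 : Real.pi * (1 / 4) = Real.pi / 4 := by ring
  simp only [Matrix.mulVec, dotProduct, Fin.sum_univ_two, vv_zero, vv_one, mul_zero,
    Real.cos_zero, Real.sin_zero, e1, e2, Real.cos_pi_div_two, Real.sin_pi_div_two,
    Real.cos_pi_div_four, Real.sin_pi_div_four, mul_one, add_zero, zero_add] at k0 k1 k2
  have d := Matrix.det_fin_two M.1
  have d' := Matrix.det_fin_two M'.1
  rw [M.2] at d
  rw [M'.2] at d'
  set a := M.1 0 0
  set b := M.1 0 1
  set c := M.1 1 0
  set e := M.1 1 1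
  set a' := M'.1 0 0 with ha'
  set b' := M'.1 0 1 with hb'
  set c' := M'.1 1 0 with hc'
  set e' := M'.1 1 1 with he'
  have hs : (0 : ℝ) < √2 / 2 := by positivity
  have hs2 : (√2 / 2) ^ 2 = 1 / 2 := by
    rw [div_pow, Real.sq_sqrt (by norm_num)]; norm_num
  have k3 : (a + b) * (c' + e') - (c + e) * (a' + b') = 0 := by
    have : (1 / 2 : ℝ) * ((a + b) * (c' + e') - (c + e) * (a' + b')) = 0 := by
      rw [← hs2]; linear_combination k2
    linarith
  -- the matrix K = M⁻¹ M'
  have K10 : a * c' - c * a' = 0 := k0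
  have K01 : e * b' - b * e' = 0 := by linear_combination -k1
  have Kd : a * e' - c * b' = e * a' - b * c' := by linear_combination k3 - K10 + K01
  set t := a * e' - c * b' with ht
  -- M' = t M
  have m00 : a' = t * a := by rw [Kd]; linear_combination a' * d + b * K10
  have m01 : b' = t * b := by rw [ht]; linear_combination b' * d + a * K01
  have m10 : c' = t * c := by rw [Kd]; linear_combination c' * d + e * K10
  have m11 : e' = t * e := by rw [ht]; linear_combination e' * d + c * K01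
  have ht2 : t ^ 2 = 1 := by
    rw [m00, m01, m10, m11] at d'
    linear_combination -d' + t ^ 2 * d
  have ht3 : (t - 1) * (t + 1) = 0 := by linear_combination ht2
  rcases mul_eq_zero.1 ht3 with h | h
  · left
    have ht1 : t = 1 := by linarith
    rw [ht1, one_mul] at m00 m01 m10 m11
    ext i j
    fin_cases i <;> fin_cases j
    · exact m00
    · exact m01
    · exact m10
    · exact m11
  · right
    have ht1 : t = -1 := by linarith
    rw [ht1, neg_one_mul] at m00 m01 m10 m11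
    ext i j
    fin_cases i <;> fin_cases j
    · exact m00
    · exact m01
    · exact m10
    · exact m11

/-- the complex number of a vector -/
noncomputable def toC (w : Fin 2 → ℝ) : ℂ := ⟨w 0, w 1⟩

theorem toC_ne {w : Fin 2 → ℝ} (hw : w ≠ 0) : toC w ≠ 0 := by
  intro h
  apply hw
  have h0 := congrArg Complex.re h
  have h1 := congrArg Complex.im h
  simp only [toC, Complex.zero_re, Complex.zero_im] at h0 h1
  ext i
  fin_cases i
  · exact h0
  · exact h1

theorem continuous_toC : Continuous toC := by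
  have : toC = fun w : Fin 2 → ℝ => ((w 0 : ℝ) : ℂ) + ((w 1 : ℝ) : ℂ) * Complex.I := by
    ext w
    simp [toC, Complex.ext_iff]
  rw [this]
  fun_prop

theorem sqc_mem {w : Fin 2 → ℝ} (hw : w ≠ 0) :
    toC w / (starRingEnd ℂ) (toC w) ∈ Submonoid.unitSphere ℂ := by
  have h := toC_ne hw
  have h2 : ‖toC w‖ ≠ 0 := norm_ne_zero_iff.2 h
  exact mem_sphere_zero_iff_norm.2 (by rw [norm_div, RCLike.norm_conj, div_self h2])

/-- the square of the direction of a vector -/
noncomputable def sqc (w : Fin 2 → ℝ) (hw : w ≠ 0) : Circle :=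
  ⟨toC w / (starRingEnd ℂ) (toC w), sqc_mem hw⟩

theorem par_iff {w : Fin 2 → ℝ} (hw : w ≠ 0) (y : ℝ) :
    Par w y ↔ Circle.exp (2 * Real.pi * y) = sqc w hw := by
  have hne : (starRingEnd ℂ) (toC w) ≠ 0 := by
    rw [Ne, map_eq_zero]; exact toC_ne hw
  have h1 : Circle.exp (2 * Real.pi * y) = sqc w hw ↔
      ((Circle.exp (2 * Real.pi * y) : Circle) : ℂ) * (starRingEnd ℂ) (toC w) = toC w := by
    rw [← eq_div_iff hne]
    exact Subtype.ext_iff
  rw [h1, Circle.coe_exp, Complex.ext_iff, Complex.mul_re, Complex.mul_im, Complex.exp_ofReal_mul_I_re,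
    Complex.exp_ofReal_mul_I_im, Complex.conj_re, Complex.conj_im]
  have e1 : 2 * Real.pi * y = 2 * (Real.pi * y) := by ring
  rw [e1, Real.cos_two_mul, Real.sin_two_mul]
  unfold Par toC
  have h2 := Real.sin_sq_add_cos_sq (Real.pi * y)
  set C := Real.cos (Real.pi * y)
  set S := Real.sin (Real.pi * y)
  constructor
  · intro h
    constructor
    · linear_combination (-2 * S) * h + 2 * w 0 * h2
    · linear_combination (2 * C) * h
  · rintro ⟨h3, h4⟩
    linear_combination (-S / 2) * h3 + (C / 2) * h4 + (w 1 * C) * h2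

/-- the direction map of a continuous family of vectors -/
noncomputable def dirMap {X : Type*} [TopologicalSpace X] (w : X → Fin 2 → ℝ)
    (hw : Continuous w) (h0 : ∀ x, w x ≠ 0) : C(X, Circle) :=
  ⟨fun x => sqc (w x) (h0 x), by
    have h1 : Continuous fun x => toC (w x) := continuous_toC.comp hw
    have h2 : Continuous fun x => toC (w x) / (starRingEnd ℂ) (toC (w x)) := by
      refine h1.div (Complex.continuous_conj.comp h1) fun x => ?_
      rw [Ne, map_eq_zero]; exact toC_ne (h0 x)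
    exact h2.subtype_mk _⟩

theorem continuous_vv : Continuous vv := by
  unfold vv
  refine continuous_pi fun i => ?_
  fin_cases i
  · simp only [Fin.zero_eta, Matrix.cons_val_zero]; fun_prop
  · simp only [Fin.mk_one, Matrix.cons_val_one, Matrix.cons_val_fin_one]; fun_prop

/-- every matrix has a lift -/
theorem exists_over (M : SL) : ∃ f : ℝ → ℝ, Continuous f ∧ Over M.1 f := by
  have hc : Continuous fun x : ℝ => M.1.mulVec (vv x) :=
    Continuous.matrix_mulVec continuous_const continuous_vv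
  have h0 : ∀ x, M.1.mulVec (vv x) ≠ 0 := fun x => mulVec_ne M (vv_ne x)
  obtain ⟨e, he⟩ := Circle.exp_surjective (dirMap _ hc h0 0)
  obtain ⟨F, ⟨-, hF⟩, -⟩ := Circle.isCoveringMap_exp.existsUnique_continuousMap_lifts
    (dirMap _ hc h0) 0 e he
  refine ⟨fun x => F x / (2 * Real.pi), by fun_prop, fun x => ?_⟩
  rw [par_iff (h0 x)]
  have h1 := congrFun hF x
  simp only [Function.comp_apply] at h1
  have hpi : (2 * Real.pi : ℝ) ≠ 0 := by positivity
  rw [mul_div_cancel₀ _ hpi, h1]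
  rfl

/-- lifting of a path of matrices starting at the identity -/
theorem exists_path (G : I → SL) (hG : Continuous fun u => (G u).1) (hG0 : G 0 = 1) :
    ∃ K : I × ℝ → ℝ, Continuous K ∧ (∀ p, Par ((G p.1).1.mulVec (vv p.2)) (K p)) ∧
      ∀ x, K (0, x) = x := by
  have hc : Continuous fun p : I × ℝ => (G p.1).1.mulVec (vv p.2) :=
    Continuous.matrix_mulVec (hG.comp continuous_fst) (continuous_vv.comp continuous_snd)
  have h0 : ∀ p : I × ℝ, (G p.1).1.mulVec (vv p.2) ≠ 0 := fun p => mulVec_ne _ (vv_ne _)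
  have hpi : (2 * Real.pi : ℝ) ≠ 0 := by positivity
  let f0 : C(ℝ, ℝ) := ⟨fun x => 2 * Real.pi * x, by fun_prop⟩
  have hH0 : ∀ x : ℝ, dirMap _ hc h0 (0, x) = Circle.exp (f0 x) := by
    intro x
    have h1 : Par ((G 0).1.mulVec (vv x)) x := by
      rw [hG0]
      simpa using par_self x
    have h2 := (par_iff (h0 (0, x)) x).1 h1
    exact h2.symm
  refine ⟨fun p => Circle.isCoveringMap_exp.liftHomotopy (dirMap _ hc h0) f0 hH0 p / (2 * Real.pi),
    by fun_prop, fun p => ?_, fun x => ?_⟩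
  · rw [par_iff (h0 p), mul_div_cancel₀ _ hpi]
    exact congrFun (Circle.isCoveringMap_exp.liftHomotopy_lifts (dirMap _ hc h0) f0 hH0) p
  · have h3 := Circle.isCoveringMap_exp.liftHomotopy_zero (dirMap _ hc h0) f0 hH0 x
    have h4 : f0 x = 2 * Real.pi * x := rfl
    show Circle.isCoveringMap_exp.liftHomotopy (dirMap _ hc h0) f0 hH0 (0, x) / (2 * Real.pi) = x
    rw [h3, h4]
    field_simp

theorem path_unique {G : I → SL} {K K' : I × ℝ → ℝ} (hK : Continuous K) (hK' : Continuous K')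
    (h : ∀ p, Par ((G p.1).1.mulVec (vv p.2)) (K p))
    (h' : ∀ p, Par ((G p.1).1.mulVec (vv p.2)) (K' p))
    (h0 : ∀ x, K (0, x) = x) (h0' : ∀ x, K' (0, x) = x) : K = K' := by
  obtain ⟨n, hn⟩ := const_int hK hK' fun p =>
    par_par (mulVec_ne (G p.1) (vv_ne p.2)) (h p) (h' p)
  have h1 := hn (0, 0)
  rw [h0, h0'] at h1
  have hn0 : (n : ℝ) = 0 := by linarith
  ext p
  rw [hn p, hn0, add_zero]

section core

variable (B : Subring ℝ) (g : B →+* C(I, ℝ))

/-- evaluation of the data at a time -/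
noncomputable def ev (u : I) : B →+* ℝ where
  toFun b := g b u
  map_one' := by rw [map_one]; rfl
  map_mul' a b := by rw [map_mul]; rfl
  map_zero' := by rw [map_zero]; rfl
  map_add' a b := by rw [map_add]; rfl

/-- the matrices at a time -/
noncomputable def mu (u : I) : Matrix.SpecialLinearGroup (Fin 2) B →* SL :=
  Matrix.SpecialLinearGroup.map (ev B g u)

theorem mu_apply (u : I) (A : Matrix.SpecialLinearGroup (Fin 2) B) (i j : Fin 2) :
    (mu B g u A).1 i j = g (A.1 i j) u := rfl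

/-- the group of paths starting at the identity -/
noncomputable def Gam : Subgroup (Matrix.SpecialLinearGroup (Fin 2) B) := (mu B g 0).ker

variable {B g}

theorem continuous_mu (A : Matrix.SpecialLinearGroup (Fin 2) B) :
    Continuous fun u => (mu B g u A).1 := by
  refine continuous_matrix fun i j => ?_
  simp only [mu_apply]
  exact (g (A.1 i j)).continuous

theorem mu_zero (A : Gam B g) : mu B g 0 A.1 = 1 := A.2

/-- the lifted family -/
noncomputable def KK (A : Gam B g) : I × ℝ → ℝ :=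
  (exists_path (fun u => mu B g u A.1) (continuous_mu A.1) (mu_zero A)).choose

theorem continuous_KK (A : Gam B g) : Continuous (KK A) :=
  (exists_path (fun u => mu B g u A.1) (continuous_mu A.1) (mu_zero A)).choose_spec.1

theorem par_KK (A : Gam B g) (p : I × ℝ) : Par ((mu B g p.1 A.1).1.mulVec (vv p.2)) (KK A p) :=
  (exists_path (fun u => mu B g u A.1) (continuous_mu A.1) (mu_zero A)).choose_spec.2.1 p

theorem KK_zero (A : Gam B g) (x : ℝ) : KK A (0, x) = x :=
  (exists_path (fun u => mu B g u A.1) (continuous_mu A.1) (mu_zero A)).choose_spec.2.2 x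

theorem KK_eq (A : Gam B g) {K : I × ℝ → ℝ} (hK : Continuous K)
    (h : ∀ p, Par ((mu B g p.1 A.1).1.mulVec (vv p.2)) (K p)) (h0 : ∀ x, K (0, x) = x) :
    KK A = K :=
  path_unique (G := fun u => mu B g u A.1) (continuous_KK A) hK (par_KK A) h (KK_zero A) h0

theorem KK_one : KK (1 : Gam B g) = fun p => p.2 := by
  apply KK_eq
  · exact continuous_snd
  · intro p
    have : mu B g p.1 (1 : Gam B g).1 = 1 := map_one _
    rw [this]
    simpa using par_self p.2
  · intro x; rfl

theorem KK_mul (A A' : Gam B g) : KK (A * A') = fun p => KK A (p.1, KK A' p) := by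
  apply KK_eq
  · exact (continuous_KK A).comp (continuous_fst.prodMk (continuous_KK A'))
  · intro p
    have h1 : mu B g p.1 (A * A').1 = mu B g p.1 A.1 * mu B g p.1 A'.1 := map_mul _ _ _
    rw [h1, Matrix.SpecialLinearGroup.coe_mul]
    exact par_comp (par_KK A' p) (par_KK A (p.1, KK A' p))
  · intro x
    show KK A (0, KK A' (0, x)) = x
    rw [KK_zero, KK_zero]

/-- the endpoint homeomorphism -/
noncomputable def jf (A : Gam B g) (x : ℝ) : ℝ := KK A (1, x)

theorem jf_one (x : ℝ) : jf (1 : Gam B g) x = x := by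
  unfold jf; rw [KK_one]

theorem jf_mul (A A' : Gam B g) (x : ℝ) : jf (A * A') x = jf A (jf A' x) := by
  unfold jf; rw [KK_mul]

theorem continuous_jf (A : Gam B g) : Continuous (jf A) :=
  (continuous_KK A).comp (continuous_const.prodMk continuous_id)

theorem over_jf (A : Gam B g) : Over (mu B g 1 A.1).1 (jf A) := fun x => par_KK A (1, x)

/-- endpoint homomorphism -/
noncomputable def jhom : Gam B g →* (ℝ ≃ₜ ℝ) where
  toFun A :=
    { toFun := jf A
      invFun := jf A⁻¹
      left_inv := fun x => by rw [← jf_mul, inv_mul_cancel, jf_one]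
      right_inv := fun x => by rw [← jf_mul, mul_inv_cancel, jf_one]
      continuous_toFun := continuous_jf A
      continuous_invFun := continuous_jf A⁻¹ }
  map_one' := by
    ext x
    exact jf_one x
  map_mul' A A' := by
    ext x
    exact jf_mul A A' x

theorem jhom_apply (A : Gam B g) (x : ℝ) : jhom A x = jf A x := rfl

end core

/-- the group of all lifts -/
def GG : Subgroup (ℝ ≃ₜ ℝ) where
  carrier := {e | ∃ M : SL, Over M.1 e}
  mul_mem' := by
    rintro e e' ⟨M, hM⟩ ⟨M', hM'⟩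
    refine ⟨M * M', ?_⟩
    rw [Matrix.SpecialLinearGroup.coe_mul]
    have h : (⇑(e * e') : ℝ → ℝ) = e ∘ e' := rfl
    rw [h]
    exact over_comp hM hM'
  one_mem' := ⟨1, fun x => over_one x⟩
  inv_mem' := by
    rintro e ⟨M, hM⟩
    exact ⟨M⁻¹, over_inv hM fun y => e.apply_symm_apply y⟩

theorem coe_mul' (e e' : ℝ ≃ₜ ℝ) (x : ℝ) : (e * e') x = e (e' x) := rfl

theorem exists_homeo {M : SL} {f : ℝ → ℝ} (hf : Continuous f) (ho : Over M.1 f) :
    ∃ e : ℝ ≃ₜ ℝ, ∀ x, e x = f x := by
  obtain ⟨f', hf', ho'⟩ := exists_over M⁻¹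
  have h1 : Over (1 : SL).1 (f ∘ f') := by
    have h := over_comp ho ho'
    rwa [← Matrix.SpecialLinearGroup.coe_mul, mul_inv_cancel] at h
  have h2 : Over (1 : SL).1 (f' ∘ f) := by
    have h := over_comp ho' ho
    rwa [← Matrix.SpecialLinearGroup.coe_mul, inv_mul_cancel] at h
  have h0 : Over (1 : SL).1 (fun x : ℝ => x) := over_one
  obtain ⟨n, hn⟩ := over_diff (hf.comp hf') continuous_id h1 h0
  obtain ⟨m, hm⟩ := over_diff (hf'.comp hf) continuous_id h2 h0
  simp only [Function.comp_apply, id_eq] at hn hm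
  have hl : ∀ x, f' (f x) - m = x := fun x => by rw [hm]; ring
  have hr : ∀ y, f (f' (y - n)) = y := fun y => by rw [hn]; ring
  refine ⟨⟨⟨f, fun y => f' y - m, hl, fun y => ?_⟩, hf, by fun_prop⟩, fun x => rfl⟩
  have h3 : f' y - m = f' (y - n) := by
    conv_lhs => rw [← hr y]
    exact hl _
  show f (f' y - m) = y
  rw [h3]
  exact hr y

theorem exists_GG (M : SL) : ∃ e : GG, Over M.1 (e.1 : ℝ → ℝ) := by
  obtain ⟨f, hf, ho⟩ := exists_over M
  obtain ⟨e, he⟩ := exists_homeo hf ho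
  have h : (⇑e : ℝ → ℝ) = f := funext he
  exact ⟨⟨e, M, by rw [h]; exact ho⟩, by rw [h]; exact ho⟩

/-- integer translation -/
noncomputable def tau (n : ℤ) : GG := ⟨Homeomorph.addRight (n : ℝ), 1, fun x => by
  have h : (Homeomorph.addRight (n : ℝ)) x = x + n := rfl
  rw [h]
  simp only [Matrix.SpecialLinearGroup.coe_one, Matrix.one_mulVec]
  unfold Par
  rw [vv_zero, vv_one, mul_add, Real.sin_add, Real.cos_add]
  have h1 : Real.sin (Real.pi * n) = 0 := by
    rw [mul_comm]; exact Real.sin_int_mul_pi n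
  rw [h1]; ring⟩

theorem tau_apply (n : ℤ) (x : ℝ) : (tau n).1 x = x + n := rfl

theorem exists_conj (M : SL) (h1 : M ≠ 1) (h2 : M ≠ -1) :
    ∃ P : SL, (P⁻¹ * M * P : SL).1 0 0 = 0 := by
  have key : ∀ v0 v1 : ℝ, v0 * (M.1 1 0 * v0 + M.1 1 1 * v1) -
      v1 * (M.1 0 0 * v0 + M.1 0 1 * v1) ≠ 0 → ∃ P : SL, (P⁻¹ * M * P : SL).1 0 0 = 0 := by
    intro v0 v1 hd
    set m0 := M.1 0 0 * v0 + M.1 0 1 * v1 with hm0
    set m1 := M.1 1 0 * v0 + M.1 1 1 * v1 with hm1
    set d := v0 * m1 - v1 * m0 with hdd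
    refine ⟨⟨!![v0, d⁻¹ * m0; v1, d⁻¹ * m1], ?_⟩, ?_⟩
    · rw [Matrix.det_fin_two_of]
      have : v0 * (d⁻¹ * m1) - d⁻¹ * m0 * v1 = d⁻¹ * d := by rw [hdd]; ring
      rw [this, inv_mul_cancel₀ hd]
    · rw [Matrix.SpecialLinearGroup.coe_mul, Matrix.SpecialLinearGroup.coe_mul,
        Matrix.SpecialLinearGroup.coe_inv, Matrix.adjugate_fin_two_of]
      simp only [Matrix.mul_apply, Fin.sum_univ_two, Matrix.of_apply, Matrix.cons_val_zero,
        Matrix.cons_val_one, Matrix.cons_val', Matrix.cons_val_fin_one]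
      rw [hm0, hm1]
      ring
  by_cases h10 : M.1 1 0 = 0
  · by_cases h01 : M.1 0 1 = 0
    · by_cases hae : M.1 1 1 - M.1 0 0 = 0
      · exfalso
        have d := Matrix.det_fin_two M.1
        rw [M.2, h10, h01] at d
        have e1 : M.1 1 1 = M.1 0 0 := by linarith
        have e2 : (M.1 0 0 - 1) * (M.1 0 0 + 1) = 0 := by rw [e1] at d; linear_combination -d
        rcases mul_eq_zero.1 e2 with h | h
        · apply h1
          have h3 : M.1 0 0 = 1 := by linarith
          ext i j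
          fin_cases i <;> fin_cases j
          · exact h3
          · exact h01
          · exact h10
          · exact e1.trans h3
        · apply h2
          have h3 : M.1 0 0 = -1 := by linarith
          ext i j
          fin_cases i <;> fin_cases j
          · simpa using h3
          · simpa using h01
          · simpa using h10
          · simpa using e1.trans h3
      · apply key 1 1
        intro h; apply hae; rw [h10, h01] at h; linarith
    · apply key 0 1
      intro h; apply h01; rw [h10] at h; linarith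
  · apply key 1 0
    intro h; apply h10; linarith

theorem over_neg {M : SL} {f : ℝ → ℝ} (h : Over (-M : SL).1 f) : Over M.1 f := by
  intro x
  have h1 := par_smul (h x) (-1)
  have h2 : (-1 : ℝ) • ((-M : SL).1.mulVec (vv x)) = M.1.mulVec (vv x) := by
    rw [Matrix.SpecialLinearGroup.coe_neg, Matrix.neg_mulVec]
    simp
  rwa [h2] at h1

section core2

variable {B : Subring ℝ} {g : B →+* C(I, ℝ)}

theorem mu_one_apply (hg1 : ∀ x : B, g x 1 = (x : ℝ)) (A : Matrix.SpecialLinearGroup (Fin 2) B)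
    (i j : Fin 2) : (mu B g 1 A).1 i j = (A.1 i j : ℝ) := by
  rw [mu_apply, hg1]

theorem exists_gam (hg1 : ∀ x : B, g x 1 = (x : ℝ)) (N : SL)
    (h : ∀ i j, ∃ h : N.1 i j ∈ B, g ⟨_, h⟩ 0 = (1 : Matrix (Fin 2) (Fin 2) ℝ) i j) :
    ∃ A : Gam B g, mu B g 1 A.1 = N := by
  choose h1 h2 using h
  have hdet : (Matrix.of fun i j => (⟨N.1 i j, h1 i j⟩ : B)).det = 1 := by
    apply Subtype.ext
    have h3 : B.subtype ((Matrix.of fun i j => (⟨N.1 i j, h1 i j⟩ : B)).det) =
        (B.subtype.mapMatrix (Matrix.of fun i j => (⟨N.1 i j, h1 i j⟩ : B))).det :=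
      RingHom.map_det _ _
    have h4 : B.subtype.mapMatrix (Matrix.of fun i j => (⟨N.1 i j, h1 i j⟩ : B)) = N.1 := by
      ext i j; rfl
    rw [h4, N.2] at h3
    exact h3
  refine ⟨⟨⟨Matrix.of fun i j => (⟨N.1 i j, h1 i j⟩ : B), hdet⟩, ?_⟩, ?_⟩
  · show mu B g 0 _ = 1
    ext i j
    exact h2 i j
  · ext i j
    rw [mu_one_apply hg1]
    rfl

/-- endpoint homomorphism into the group of lifts -/
noncomputable def jG : Gam B g →* GG :=
  (jhom (B := B) (g := g)).codRestrict GG fun A => ⟨mu B g 1 A.1, over_jf A⟩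

theorem jG_apply (A : Gam B g) (x : ℝ) : (jG A).1 x = jf A x := rfl

theorem over_jG (A : Gam B g) : Over (mu B g 1 A.1).1 ((jG A).1 : ℝ → ℝ) := over_jf A

theorem gam_zero (A : Gam B g) : g (A.1.1 0 0) 0 = 1 := by
  have h := congrArg (fun M : SL => M.1 0 0) (mu_zero A)
  simpa [mu_apply] using h

/-- only the trivial lift over plus or minus one comes from the path group -/
theorem gam_triv (hg1 : ∀ x : B, g x 1 = (x : ℝ)) (A : Gam B g)
    (h : mu B g 1 A.1 = 1 ∨ mu B g 1 A.1 = -1) : A = 1 := by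
  rcases h with h | h
  · apply Subtype.ext
    apply Matrix.SpecialLinearGroup.ext
    intro i j
    apply Subtype.ext
    rw [← mu_one_apply hg1, h]
    fin_cases i <;> fin_cases j <;> rfl
  · exfalso
    have h1 : (A.1.1 0 0 : ℝ) = -1 := by
      rw [← mu_one_apply hg1, h]
      simp
    have h2 : A.1.1 0 0 = -1 := Subtype.ext (by rw [h1]; rfl)
    have h3 := gam_zero A
    rw [h2, map_neg, map_one] at h3
    have h4 : (-1 : C(I, ℝ)) 0 = -1 := rfl
    rw [h4] at h3
    norm_num at h3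

theorem countable_quot (hg1 : ∀ x : B, g x 1 = (x : ℝ)) (c : SL → ℕ)
    (hc : ∀ M N : SL, c M = c N → ∀ i j,
      ∃ h : (M⁻¹ * N : SL).1 i j ∈ B, g ⟨_, h⟩ 0 = (1 : Matrix (Fin 2) (Fin 2) ℝ) i j) :
    Countable (GG ⧸ (jG (B := B) (g := g)).range) := by
  classical
  have hmat : ∀ e : GG, ∃ M : SL, Over M.1 (e.1 : ℝ → ℝ) := fun e => e.2
  choose mat hm using hmat
  have hrep : ∀ m : ℕ, ∃ e : GG, (∃ e', c (mat e') = m) → c (mat e) = m := by
    intro m
    by_cases h : ∃ e', c (mat e') = m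
    · obtain ⟨e', he'⟩ := h
      exact ⟨e', fun _ => he'⟩
    · exact ⟨1, fun h' => absurd h' h⟩
  choose rep hr using hrep
  apply Function.Surjective.countable (α := ℕ × ℤ)
    (f := fun p => (QuotientGroup.mk (rep p.1 * tau p.2) : GG ⧸ (jG (B := B) (g := g)).range))
  intro q
  induction q using QuotientGroup.induction_on with
  | H e' =>
    have h1 : c (mat (rep (c (mat e')))) = c (mat e') := hr _ ⟨e', rfl⟩
    set e := rep (c (mat e')) with he
    obtain ⟨A, hA⟩ := exists_gam hg1 ((mat e)⁻¹ * mat e') (hc _ _ h1)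
    have ho : Over ((mat e)⁻¹ * mat e' : SL).1 ((e⁻¹ * e' : GG).1 : ℝ → ℝ) := by
      rw [Matrix.SpecialLinearGroup.coe_mul]
      have h2 : (⇑(e⁻¹ * e' : GG).1 : ℝ → ℝ) = (e⁻¹ : GG).1 ∘ e'.1 := rfl
      rw [h2]
      refine over_comp ?_ (hm e')
      exact over_inv (hm e) fun y => e.1.apply_symm_apply y
    have ho' : Over ((mat e)⁻¹ * mat e' : SL).1 ((jG A).1 : ℝ → ℝ) := by
      rw [← hA]; exact over_jG A
    obtain ⟨n, hn⟩ := over_diff (e⁻¹ * e' : GG).1.continuous (jG A).1.continuous ho ho'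
    have h3 : e⁻¹ * e' = tau n * jG A := by
      apply Subtype.ext
      ext x
      rw [hn x]
      rfl
    refine ⟨(c (mat e'), n), ?_⟩
    show (QuotientGroup.mk (e * tau n) : GG ⧸ (jG (B := B) (g := g)).range) = QuotientGroup.mk e'
    rw [QuotientGroup.eq]
    refine ⟨A, ?_⟩
    rw [_root_.mul_inv_rev, mul_assoc, h3, inv_mul_cancel_left]

theorem faithful (hg1 : ∀ x : B, g x 1 = (x : ℝ)) :
    Function.Injective (MulAction.toPermHom GG (GG ⧸ (jG (B := B) (g := g)).range)) := by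
  rw [← MonoidHom.ker_eq_bot_iff, ← Subgroup.normalCore_eq_ker, eq_bot_iff]
  intro e he
  rw [Subgroup.mem_bot]
  have he' : ∀ b : GG, b * e * b⁻¹ ∈ (jG (B := B) (g := g)).range := he
  obtain ⟨M, hM⟩ := e.2
  by_cases h1 : M = 1 ∨ M = -1
  · have h2 : Over (1 : SL).1 (e.1 : ℝ → ℝ) := by
      rcases h1 with rfl | rfl
      · exact hM
      · exact over_neg hM
    obtain ⟨A, hA⟩ := he' 1
    rw [one_mul, inv_one, mul_one] at hA
    have h3 := over_jG A
    rw [hA] at h3
    have h4 := gam_triv hg1 A (over_unique h2 h3)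
    rw [← hA, h4, map_one]
  · exfalso
    rw [not_or] at h1
    obtain ⟨P, hP⟩ := exists_conj M h1.1 h1.2
    obtain ⟨h, hh⟩ := exists_GG P
    obtain ⟨A, hA⟩ := he' h⁻¹
    rw [inv_inv] at hA
    have h3 : Over (P⁻¹ * M * P : SL).1 ((h⁻¹ * e * h : GG).1 : ℝ → ℝ) := by
      rw [Matrix.SpecialLinearGroup.coe_mul, Matrix.SpecialLinearGroup.coe_mul]
      have h2 : (⇑(h⁻¹ * e * h : GG).1 : ℝ → ℝ) = ((h⁻¹ : GG).1 ∘ e.1) ∘ h.1 := rfl
      rw [h2]
      exact over_comp (over_comp (over_inv hh fun y => h.1.apply_symm_apply y) hM) hh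
    have h4 := over_jG A
    rw [hA] at h4
    have h5 : (mu B g 1 A.1).1 0 0 = 0 := by
      rcases over_unique h3 h4 with h6 | h6
      · rw [h6, hP]
      · rw [h6, Matrix.SpecialLinearGroup.coe_neg, Matrix.neg_apply, hP, neg_zero]
    rw [mu_one_apply hg1] at h5
    have h6 : A.1.1 0 0 = 0 := Subtype.ext (by rw [h5]; rfl)
    have h7 := gam_zero A
    have h9 : g 0 = 0 := map_zero g
    have h8 : (0 : C(I, ℝ)) 0 = 0 := rfl
    rw [h6, h9, h8] at h7
    norm_num at h7

end core2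

theorem exists_hom {G : Type*} [Group G] (H : Subgroup G) [Countable (G ⧸ H)]
    (hinj : Function.Injective (MulAction.toPermHom G (G ⧸ H))) :
    ∃ Φ : G →* Equiv.Perm ℕ, Function.Injective Φ := by
  obtain ⟨eq⟩ := nonempty_equiv_of_countable (α := (G ⧸ H) ⊕ ℕ) (β := ℕ)
  refine ⟨(eq.permCongrHom.toMonoidHom).comp
    ((Equiv.Perm.sumCongrHom (G ⧸ H) ℕ).comp
      ((MonoidHom.inl _ _).comp (MulAction.toPermHom G (G ⧸ H)))), ?_⟩
  intro a b hab
  apply hinj
  have h1 := eq.permCongrHom.injective hab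
  have h2 := Equiv.Perm.sumCongrHom_injective h1
  exact congrArg Prod.fst h2

end Lift

open Lift in
theorem final_of_core
    (B : Subring ℝ) (g : B →+* C(I, ℝ)) (c : Matrix.SpecialLinearGroup (Fin 2) ℝ → ℕ)
    (hg1 : ∀ x : B, g x 1 = (x : ℝ))
    (hc : ∀ M N : Matrix.SpecialLinearGroup (Fin 2) ℝ, c M = c N → ∀ i j,
      ∃ h : (M⁻¹ * N : Matrix.SpecialLinearGroup (Fin 2) ℝ).1 i j ∈ B,
        g ⟨_, h⟩ 0 = (1 : Matrix (Fin 2) (Fin 2) ℝ) i j) :
    ∀ S : Set (ℝ → ℝ),
      S = {f : ℝ → ℝ | Continuous f ∧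
        ∃ M : Matrix (Fin 2) (Fin 2) ℝ, M.det = 1 ∧
          ∀ x : ℝ,
            (M.mulVec ![Real.cos (Real.pi * x), Real.sin (Real.pi * x)]) 0
                * Real.sin (Real.pi * f x)
              - (M.mulVec ![Real.cos (Real.pi * x), Real.sin (Real.pi * x)]) 1
                * Real.cos (Real.pi * f x) = 0} →
      ∃ φ : (ℝ → ℝ) → Equiv.Perm ℕ,
        (∀ f ∈ S, ∀ g ∈ S, φ (f ∘ g) = φ f * φ g) ∧
        (∀ f ∈ S, ∀ g ∈ S, φ f = φ g → f = g) := by
  classical
  intro S hS
  have hgg : ∀ f : ℝ → ℝ, f ∈ S → ∃ e : GG, ∀ x, e.1 x = f x := by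
    intro f hf
    rw [hS] at hf
    obtain ⟨hf1, M, hM, hf2⟩ := hf
    have ho : Over (⟨M, hM⟩ : SL).1 f := hf2
    obtain ⟨e, he⟩ := exists_homeo hf1 ho
    have h : (⇑e : ℝ → ℝ) = f := funext he
    exact ⟨⟨e, ⟨M, hM⟩, by rw [h]; exact ho⟩, he⟩
  have hmemS : ∀ e : GG, (fun x => e.1 x) ∈ S := by
    intro e
    rw [hS]
    obtain ⟨M, hM⟩ := e.2
    exact ⟨e.1.continuous, M.1, M.2, hM⟩
  have := countable_quot hg1 c hc
  obtain ⟨Φ, hΦ⟩ := exists_hom _ (faithful (B := B) (g := g) hg1)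
  choose! el hel using hgg
  refine ⟨fun f => Φ (el f), fun f hf f' hf' => ?_, fun f hf f' hf' h => ?_⟩
  · have hcomp : f ∘ f' ∈ S := by
      have h1 := hmemS (el f * el f')
      have h2 : (fun x => (el f * el f' : GG).1 x) = f ∘ f' := by
        ext x
        show (el f).1 ((el f').1 x) = f (f' x)
        rw [hel f' hf', hel f hf]
      rwa [h2] at h1
    have h3 : el (f ∘ f') = el f * el f' := by
      apply Subtype.ext
      ext x
      rw [hel _ hcomp]
      show f (f' x) = (el f).1 ((el f').1 x)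
      rw [hel f' hf', hel f hf]
    show Φ (el (f ∘ f')) = Φ (el f) * Φ (el f')
    rw [h3, map_mul]
  · have h1 := hΦ h
    ext x
    rw [← hel f hf, ← hel f' hf', h1]

end Pool.Agent.Work.MP_bfb3ed_al
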