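import Pool.Agent.Work.MP_bfb3ed_al.Core

set_option autoImplicit false

open Polynomial Topology unitInterval Filter

namespace Pool.Agent.Work.MP_bfb3ed_al

open MvPolynomial in
lemma algInd_affine {ι R A : Type*} [CommRing R] [IsDomain R] [CommRing A] [Algebra R A]
    (u : ι → A) (hu : AlgebraicIndependent R u) (b c : ι → R) (hb : ∀ i, b i ≠ 0) :
    AlgebraicIndependent R (fun i => algebraMap R A (c i) + algebraMap R A (b i) * u i) := by
  rw [algebraicIndependent_iff]
  intro p hp
  have h1 : aeval u (bind₁ (fun i => MvPolynomial.C (c i) + MvPolynomial.C (b i) * MvPolynomial.X i) p) = 0 := by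
    rw [aeval_bind₁, ← hp]
    simp
  have h2 := (algebraicIndependent_iff.1 hu) _ h1
  let j : R →+* FractionRing R := algebraMap R (FractionRing R)
  have hj : Function.Injective j := IsFractionRing.injective R (FractionRing R)
  have h3 : ∀ q : MvPolynomial ι R, bind₁ (fun i => MvPolynomial.C (j (b i))⁻¹ *
      (MvPolynomial.X i - MvPolynomial.C (j (c i))))
      (MvPolynomial.map j (bind₁ (fun i => MvPolynomial.C (c i) +
        MvPolynomial.C (b i) * MvPolynomial.X i) q)) = MvPolynomial.map j q := by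
    intro q
    induction q using MvPolynomial.induction_on with
    | C a => simp
    | add p q hp hq => rw [map_add, map_add, map_add, hp, hq, map_add]
    | mul_X p i hp =>
      rw [map_mul, map_mul, map_mul, hp, map_mul, bind₁_X_right]
      congr 1
      have hb' : j (b i) ≠ 0 := by
        rw [Ne, map_eq_zero_iff _ hj]
        exact hb i
      simp only [map_add, MvPolynomial.map_C, map_mul, MvPolynomial.map_X, bind₁_C_right,
        bind₁_X_right]
      rw [← mul_assoc, ← MvPolynomial.C_mul, mul_inv_cancel₀ hb', MvPolynomial.C_1, one_mul]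
      ring
  have h4 := h3 p
  rw [h2, map_zero, map_zero] at h4
  exact (MvPolynomial.map_injective j hj (h4.symm.trans (map_zero _).symm))

/-- `ιS f` is in the range of `ιp` -/
lemma ιS_eq (f : S) : ιS f = ιp K0 (Polynomial.C (algebraMap S K0 f)) := by
  rw [ιp_apply, Polynomial.coe_C]
  rfl

lemma eps_eq : eps K0 = ιp K0 Polynomial.X := by
  rw [ιp_apply, Polynomial.coe_X]
  rfl

instance charZero_S : CharZero S := ⟨fun a b h => by
  have h1 : ((a : S) : C(I, ℝ)) 0 = ((b : S) : C(I, ℝ)) 0 := by rw [h]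
  simpa using h1⟩

instance charZero_K0 : CharZero K0 := charZero_of_injective_algebraMap (IsFractionRing.injective S K0)

/-- rational approximations -/
lemma exists_rat_seq (x : ℝ) : ∃ a : ℕ → ℚ, Tendsto (fun q => (a q : ℝ)) atTop (𝓝 x) := by
  have h : ∀ q : ℕ, ∃ r : ℚ, |x - r| < 1 / ((q : ℝ) + 1) := fun q => exists_rat_near x (by positivity)
  choose a ha using h
  refine ⟨a, ?_⟩
  rw [tendsto_iff_dist_tendsto_zero]
  refine squeeze_zero (fun _ => dist_nonneg) (fun q => ?_) tendsto_one_div_add_atTop_nhds_zero_nat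
  rw [dist_comm, Real.dist_eq]
  exact (ha q).le

lemma exists_indep (R1 K : Type) [CommRing R1] [IsDomain R1] [CharZero R1] [Field K] [IsAlgClosed K]
    (φ : R1 →+* K) (hφ : Function.Injective φ) (hc : Cardinal.mk R1 ≤ Cardinal.aleph0)
    (hK : Cardinal.continuum ≤ Cardinal.mk K) (s : Set ℝ) :
    ∃ u : s → K, ∀ b c : s → R1, (∀ i, b i ≠ 0) → Function.Injective
      (MvPolynomial.eval₂Hom (Int.castRingHom K) (fun i => φ (c i) + φ (b i) * u i)) := by
  let _ : Algebra R1 K := φ.toAlgebra
  have hfaith : FaithfulSMul R1 K := by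
    rw [faithfulSMul_iff_algebraMap_injective]
    exact hφ
  obtain ⟨t, ht⟩ := exists_isTranscendenceBasis R1 K
  have hcard : Cardinal.mk K = Cardinal.mk t :=
    IsAlgClosed.cardinal_eq_cardinal_transcendence_basis_of_aleph0_lt' _ ht hc
      (Cardinal.aleph0_lt_continuum.trans_le hK)
  have hle : Cardinal.mk s ≤ Cardinal.mk t := by
    rw [← hcard]
    exact (Cardinal.mk_set_le s).trans (Cardinal.mk_real.le.trans hK)
  obtain ⟨⟨e, he⟩⟩ := hle
  have hu : AlgebraicIndependent R1 (fun α : s => ((e α : t) : K)) := ht.1.comp e he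
  refine ⟨fun α : s => ((e α : t) : K), fun b c hb => ?_⟩
  have h1 := algInd_affine (fun α : s => ((e α : t) : K)) hu b c hb
  exact h1.restrictScalars (R := ℤ) (RingHom.injective_int _)

/-- linear functions as elements of `S` -/
noncomputable def linS (a b : ℚ) : S := ⟨lin a b, lin_mem a b⟩

/-- the perturbed linear function -/
noncomputable def xi (a : ℕ → ℚ) (m : ℕ) (u : L) (q : ℕ) : L :=
  ιS (linS (a q) (a (q + 1) - a q)) + eps K0 ^ m * u

lemma xi_eq (a : ℕ → ℚ) (m : ℕ) (u : L) (q : ℕ) : xi a m u q =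
    ιp K0 (Polynomial.C (algebraMap S K0 (linS (a q) (a (q + 1) - a q)))) +
      ιp K0 (Polynomial.X ^ m) * u := by
  rw [xi, ιS_eq, map_pow, ← eps_eq]

lemma rel_xi (a : ℕ → ℚ) (m : ℕ) (u : L) (q : ℕ) (h : v K0 (eps K0 ^ m * u) < 1) :
    rel (xi a m u q) (lin (a q) (a (q + 1) - a q)) := by
  refine ⟨lin_mem _ _, ?_⟩
  have : xi a m u q - ιS ⟨lin (a q) (a (q + 1) - a q), lin_mem _ _⟩ = eps K0 ^ m * u :=
    add_sub_cancel_left _ _
  rw [this]
  exact h

/-- the embedding of a family of independent indeterminates -/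
lemma exists_family (s : Set ℝ) (a : s → ℕ → ℚ) : ∃ ξ : ℕ → s → L,
    (∀ q, Function.Injective (MvPolynomial.eval₂Hom (Int.castRingHom L) (ξ q))) ∧
    ∀ q α, rel (ξ q α) (lin (a α q) (a α (q + 1) - a α q)) := by
  have hcount : Cardinal.mk (Polynomial K0) ≤ Cardinal.aleph0 := by
    refine Polynomial.cardinalMk_le_max.trans ?_
    simp
  obtain ⟨u, hu⟩ := exists_indep (Polynomial K0) L (ιp K0) (ιp_injective K0) hcount (continuum_le K0) s
  choose m hm using fun α : s => exists_pow_lt K0 (u α)
  refine ⟨fun q α => xi (a α) (m α) (u α) q, fun q => ?_, fun q α => rel_xi _ _ _ _ (hm α)⟩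
  have h1 := hu (fun α => Polynomial.X ^ m α)
      (fun α => Polynomial.C (algebraMap S K0 (linS (a α q) (a α (q + 1) - a α q))))
      (fun α => pow_ne_zero _ Polynomial.X_ne_zero)
  have h2 : (fun α : s => xi (a α) (m α) (u α) q) =
        fun α : s => ιp K0 (Polynomial.C (algebraMap S K0 (linS (a α q) (a α (q + 1) - a α q)))) +
          ιp K0 (Polynomial.X ^ m α) * u α := by
    funext α
    exact xi_eq _ _ _ _
  beta_reduce
  rw [h2]
  exact h1

lemma good_family (a : ℕ → ℚ) (x : ℝ) (ha : Tendsto (fun q => (a q : ℝ)) atTop (𝓝 x)) (ξ : ℕ → L)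
    (hrel : ∀ q, rel (ξ q) (lin (a q) (a (q + 1) - a q))) : Good ξ x := by
  refine ⟨fun q => lin (a q) (a (q + 1) - a q), Eventually.of_forall (fun q => ⟨hrel q, ?_⟩), ?_⟩
  · rw [lin_apply, lin_apply]
    push_cast
    simp
  · rw [Metric.tendsto_atTop] at ha ⊢
    intro ε hε
    obtain ⟨N, hN⟩ := ha (ε / 2) (half_pos hε)
    refine ⟨N, fun q hq => ?_⟩
    rw [ContinuousMap.dist_lt_iff hε]
    intro t
    have h1 := hN q hq
    have h2 := hN (q + 1) (by omega)
    rw [lin_apply, ContinuousMap.const_apply]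
    rw [Real.dist_eq] at h1 h2 ⊢
    push_cast
    have ht0 := t.2.1
    have ht1 := t.2.2
    rw [abs_lt] at h1 h2 ⊢
    constructor
    · nlinarith
    · nlinarith

theorem exists_base : ∃ (F : Type) (_ : Field F) (aR : F →+* ℝ) (ψ : ℕ → (F →+* L)),
    (∀ y : ℝ, ∃ P : Polynomial F, P ≠ 0 ∧ P.eval₂ aR y = 0) ∧
    ∀ x : F, Good (fun q => ψ q x) (aR x) := by
  obtain ⟨s, hs⟩ := exists_isTranscendenceBasis ℤ ℝ
  choose a ha using fun α : s => exists_rat_seq (α : ℝ)
  obtain ⟨ξ, hξ, hrel⟩ := exists_family s a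
  let A : Type := MvPolynomial s ℤ
  let F : Type := FractionRing (MvPolynomial s ℤ)
  have hR : Function.Injective (MvPolynomial.aeval (fun α : s => (α : ℝ)) : MvPolynomial s ℤ →ₐ[ℤ] ℝ) := hs.1
  let aR : F →+* ℝ := IsFractionRing.lift (A := MvPolynomial s ℤ) (K := F)
    (g := ((MvPolynomial.aeval (fun α : s => (α : ℝ)) : MvPolynomial s ℤ →ₐ[ℤ] ℝ) : MvPolynomial s ℤ →+* ℝ)) hR
  let ψ : ℕ → (F →+* L) := fun q => IsFractionRing.lift (A := MvPolynomial s ℤ) (K := F)
    (g := MvPolynomial.eval₂Hom (Int.castRingHom L) (ξ q)) (hξ q)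
  have haR : ∀ p : MvPolynomial s ℤ, aR (algebraMap _ F p) = MvPolynomial.aeval (fun α : s => (α : ℝ)) p :=
    fun p => IsFractionRing.lift_algebraMap _ p
  have hψ : ∀ q, ∀ p : MvPolynomial s ℤ, ψ q (algebraMap _ F p) =
      MvPolynomial.eval₂Hom (Int.castRingHom L) (ξ q) p :=
    fun q p => IsFractionRing.lift_algebraMap _ p
  refine ⟨F, inferInstance, aR, ψ, ?_, ?_⟩
  · intro y
    have halg := hs.isAlgebraic
    obtain ⟨p, hp, hp0⟩ := halg.isAlgebraic y
    let θ : Algebra.adjoin ℤ (Set.range (Subtype.val : s → ℝ)) →+* F :=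
      (algebraMap (MvPolynomial s ℤ) F).comp (hs.1.repr : _ →+* MvPolynomial s ℤ)
    have hθ : aR.comp θ = algebraMap _ ℝ := by
      ext z
      show aR (algebraMap _ F (hs.1.repr z)) = z
      rw [haR]
      exact hs.1.aeval_repr z
    have hθi : Function.Injective θ := by
      have h1 : Function.Injective (aR.comp θ) := by
        rw [hθ]
        exact Subtype.val_injective
      intro z z' hz
      exact h1 (congrArg aR hz)
    refine ⟨p.map θ, ?_, ?_⟩
    · rwa [Ne, Polynomial.map_eq_zero_iff hθi]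
    · rw [Polynomial.eval₂_map, hθ]
      exact hp0
  · have hpoly : ∀ p : MvPolynomial s ℤ, Good (fun q => ψ q (algebraMap _ F p)) (aR (algebraMap _ F p)) := by
      intro p
      simp only [haR, hψ]
      induction p using MvPolynomial.induction_on with
      | C n =>
        have := good_const_int n
        simpa using! this
      | add p q hp hq =>
        have := good_add hp hq
        simpa using! this
      | mul_X p α hp =>
        have := good_mul hp (good_family (a α) α (ha α) (fun q => ξ q α) (fun q => hrel q α))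
        simpa using! this
    intro x
    obtain ⟨p, r, hr, rfl⟩ := IsFractionRing.div_surjective (A := MvPolynomial s ℤ) x
    have hr0 : algebraMap (MvPolynomial s ℤ) F r ≠ 0 := by
      rw [Ne, map_eq_zero_iff _ (IsFractionRing.injective (MvPolynomial s ℤ) F)]
      exact nonZeroDivisors.ne_zero hr
    have h1 := good_mul (hpoly p) (good_inv (hpoly r) (by
      rw [Ne, map_eq_zero_iff _ aR.injective]
      exact hr0) (fun q => by
      rw [Ne, map_eq_zero_iff _ (ψ q).injective]
      exact hr0))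
    simp only [div_eq_mul_inv, map_mul, map_inv₀]
    exact h1

end Pool.Agent.Work.MP_bfb3ed_al
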