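import Mathlib

set_option autoImplicit false

open Polynomial Topology unitInterval Filter

namespace Pool.Agent.Work.MP_bfb3ed_al

/-! ### roots of polynomials with coefficients near constants -/

/-- the generic monic polynomial -/
noncomputable def Gf (n : ℕ) (u : (Fin n → C(I, ℝ)) × C(I, ℝ)) : C(I, ℝ) :=
  u.2 ^ n + ∑ i : Fin n, u.1 i * u.2 ^ (i : ℕ)

/-- its derivative -/
noncomputable def Gd (n : ℕ) (u : (Fin n → C(I, ℝ)) × C(I, ℝ)) : C(I, ℝ) :=
  n • u.2 ^ (n - 1) + ∑ i : Fin n, u.1 i * ((i : ℕ) • u.2 ^ ((i : ℕ) - 1))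

lemma Gf_apply (n : ℕ) (u : (Fin n → C(I, ℝ)) × C(I, ℝ)) (s : I) :
    Gf n u s = (u.2 s) ^ n + ∑ i : Fin n, u.1 i s * (u.2 s) ^ (i : ℕ) := by
  simp [Gf, ContinuousMap.sum_apply]

lemma contDiff_Gf (n : ℕ) : ContDiff ℝ ⊤ (Gf n) := by
  unfold Gf
  refine (contDiff_snd.pow n).add (ContDiff.sum (fun i _ => ?_))
  have h1 : ContDiff ℝ ⊤ (fun u : (Fin n → C(I, ℝ)) × C(I, ℝ) => u.1 i) := by
    exact (contDiff_apply ℝ (C(I, ℝ)) i).comp contDiff_fst
  exact h1.mul (contDiff_snd.pow _)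

lemma continuous_Gd (n : ℕ) : Continuous (Gd n) := by
  unfold Gd
  fun_prop

lemma exists_impl (n : ℕ) (lamv : Fin n → ℝ) (y : ℝ)
    (h0 : y ^ n + ∑ i : Fin n, lamv i * y ^ (i : ℕ) = 0)
    (h1 : (n : ℝ) * y ^ (n - 1) + ∑ i : Fin n, lamv i * ((i : ℕ) * y ^ ((i : ℕ) - 1)) ≠ 0)
    (f : ℕ → Fin n → C(I, ℝ))
    (hf : Tendsto f atTop (𝓝 (fun i => ContinuousMap.const I (lamv i))))
    (hm : ∀ᶠ q in atTop, ∀ i, f q i 1 = f (q + 1) i 0) :
    ∃ r : ℕ → C(I, ℝ), Tendsto r atTop (𝓝 (ContinuousMap.const I y)) ∧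
      ∀ᶠ q in atTop, Gf n (f q, r q) = 0 ∧ (∀ s, Gd n (f q, r q) s ≠ 0) ∧ r q 1 = r (q + 1) 0 := by
  set u : (Fin n → C(I, ℝ)) × C(I, ℝ) := (fun i => ContinuousMap.const I (lamv i),
    ContinuousMap.const I y) with hu
  have cdf : ContDiffAt ℝ ⊤ (Gf n) u := (contDiff_Gf n).contDiffAt
  have pn : (⊤ : WithTop ℕ∞) ≠ 0 := by simp
  set d : ℝ := (n : ℝ) * y ^ (n - 1) + ∑ i : Fin n, lamv i * ((i : ℕ) * y ^ ((i : ℕ) - 1)) with hd
  have hu0 : Gf n u = 0 := by
    ext s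
    rw [Gf_apply]
    exact h0
  have hud : Gd n u = ContinuousMap.const I d := by
    ext s
    simp [Gd, ContinuousMap.sum_apply, hu, hd]
  have if₂ : (fderiv ℝ (Gf n) u ∘L .inr ℝ (Fin n → C(I, ℝ)) (C(I, ℝ))).IsInvertible := by
    have hfd : HasFDerivAt (Gf n) (fderiv ℝ (Gf n) u) u := (cdf.differentiableAt pn).hasFDerivAt
    have hinr : HasFDerivAt (fun r : C(I, ℝ) => ((u.1, r) : (Fin n → C(I, ℝ)) × C(I, ℝ)))
        (.inr ℝ (Fin n → C(I, ℝ)) (C(I, ℝ))) u.2 := hasFDerivAt_prodMk_right u.1 u.2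
    have hcomp : HasFDerivAt (fun r : C(I, ℝ) => Gf n (u.1, r))
        (fderiv ℝ (Gf n) u ∘L .inr ℝ (Fin n → C(I, ℝ)) (C(I, ℝ))) u.2 := by
      have := HasFDerivAt.comp u.2 (g := Gf n)
        (f := fun r : C(I, ℝ) => ((u.1, r) : (Fin n → C(I, ℝ)) × C(I, ℝ))) hfd hinr
      exact this
    have hd2 : HasFDerivAt (fun r : C(I, ℝ) => Gf n (u.1, r))
        (Gd n u • ContinuousLinearMap.id ℝ (C(I, ℝ))) u.2 := by
      have h2 : HasFDerivAt (fun r : C(I, ℝ) => r ^ n + ∑ i : Fin n, u.1 i * r ^ (i : ℕ))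
        ((n • u.2 ^ (n - 1)) • ContinuousLinearMap.id ℝ (C(I, ℝ)) +
          ∑ i : Fin n, (u.1 i) • (((i : ℕ) • u.2 ^ ((i : ℕ) - 1)) • ContinuousLinearMap.id ℝ (C(I, ℝ)))) u.2 := by
        refine ((hasFDerivAt_id u.2).pow n).add (HasFDerivAt.fun_sum (fun i _ => ?_))
        exact ((hasFDerivAt_id u.2).pow (i : ℕ)).const_mul (u.1 i)
      refine h2.congr_fderiv ?_
      ext h s
      simp [Gd, ContinuousMap.sum_apply, add_mul, Finset.sum_mul, mul_assoc]
    have h4 := hcomp.unique hd2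
    rw [h4, hud]
    refine ContinuousLinearMap.IsInvertible.of_inverse
      (g := (ContinuousMap.const I d⁻¹) • ContinuousLinearMap.id ℝ (C(I, ℝ))) ?_ ?_
    · ext h s
      simp [← mul_assoc, mul_inv_cancel₀ h1]
    · ext h s
      simp [← mul_assoc, inv_mul_cancel₀ h1]
  set ψ := cdf.implicitFunction pn if₂ with hψ
  have e1 : ∀ᶠ x in 𝓝 u.1, Gf n (x, ψ x) = Gf n u := cdf.eventually_apply_implicitFunction pn if₂
  have e2 : ∀ᶠ w in 𝓝 u, Gf n w = Gf n u ↔ ψ w.1 = w.2 :=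
    cdf.eventually_apply_eq_iff_implicitFunction pn if₂
  have hψ0 : ψ u.1 = u.2 := cdf.implicitFunction_apply_self pn if₂
  have hψc : ContinuousAt ψ u.1 := (cdf.hasStrictFDerivAt_implicitFunction pn if₂).continuousAt
  have hr : Tendsto (fun q => ψ (f q)) atTop (𝓝 u.2) := by
    rw [← hψ0]
    exact hψc.tendsto.comp hf
  have hpair : Tendsto (fun q => (f q, ψ (f q))) atTop (𝓝 u) := hf.prodMk_nhds hr
  have hsucc : Tendsto (fun q : ℕ => q + 1) atTop atTop := tendsto_add_atTop_nat 1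
  -- evaluation at a point, as a constant
  have hev : ∀ s : I, Continuous (fun w : C(I, ℝ) => ContinuousMap.const I (w s)) := by
    intro s
    exact ContinuousMap.continuous_const'.comp (continuous_eval_const s)
  have hev2 : ∀ s : I, Continuous (fun w : (Fin n → C(I, ℝ)) × C(I, ℝ) =>
      ((fun i => ContinuousMap.const I (w.1 i s), ContinuousMap.const I (w.2 s)) :
        (Fin n → C(I, ℝ)) × C(I, ℝ))) := by
    intro s
    refine Continuous.prodMk ?_ ((hev s).comp continuous_snd)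
    exact continuous_pi (fun i => (hev s).comp ((continuous_apply i).comp continuous_fst))
  have e1' : ∀ᶠ q in atTop, Gf n (f q, ψ (f q)) = 0 := by
    filter_upwards [hf.eventually e1] with q hq
    rw [hq, hu0]
  have e3 : ∀ s : I, ∀ᶠ q in atTop, ψ (fun i => ContinuousMap.const I (f q i s)) =
      ContinuousMap.const I (ψ (f q) s) := by
    intro s
    have h5 : Tendsto (fun q => ((fun i => ContinuousMap.const I (f q i s),
        ContinuousMap.const I (ψ (f q) s)) : (Fin n → C(I, ℝ)) × C(I, ℝ))) atTop (𝓝 u) :=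
      ((hev2 s).tendsto u).comp hpair
    filter_upwards [h5.eventually e2, e1'] with q hq hq1
    refine hq.1 ?_
    rw [hu0]
    ext t
    rw [Gf_apply]
    have := DFunLike.congr_fun hq1 s
    rw [Gf_apply] at this
    exact this
  refine ⟨fun q => ψ (f q), hr, ?_⟩
  have e4 : ∀ᶠ q in atTop, IsUnit (Gd n (f q, ψ (f q))) := by
    have h6 : Tendsto (fun q => Gd n (f q, ψ (f q))) atTop (𝓝 (Gd n u)) :=
      ((continuous_Gd n).tendsto u).comp hpair
    refine h6.eventually (Units.isOpen.mem_nhds ?_)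
    show IsUnit (Gd n u)
    rw [hud, ContinuousMap.isUnit_iff_forall_ne_zero]
    intro s
    exact h1
  filter_upwards [e1', e4, hm, e3 1, hsucc.eventually (e3 0)] with q h7 h8 h9 h10 h11
  refine ⟨h7, (ContinuousMap.isUnit_iff_forall_ne_zero _).1 h8, ?_⟩
  have h12 : (fun i => ContinuousMap.const I (f q i 1)) =
      fun i => ContinuousMap.const I (f (q + 1) i 0) := by
    funext i
    rw [h9 i]
  rw [h12, h11] at h10
  exact (DFunLike.congr_fun h10 0).symm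

end Pool.Agent.Work.MP_bfb3ed_al
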