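import Mathlib

set_option autoImplicit false

open Polynomial

namespace Pool.Agent.Work.MP_bfb3ed_al

/-! ### sections of ring maps onto an algebraic extension -/

/-- If simple roots of monic polynomials lift along `lam`, then `lam` has a section. -/
theorem exists_section {F T E : Type*} [Field F] [CommRing T] [Algebra F T] [Field E] [CharZero E]
    [Algebra F E] [Algebra.IsAlgebraic F E] (lam : T →ₐ[F] E)
    (hroot : ∀ (P : Polynomial T) (y : E), P.Monic → (P.map (lam : T →+* E)).eval y = 0 →
      (P.map (lam : T →+* E)).derivative.eval y ≠ 0 → ∃ z : T, P.eval z = 0 ∧ lam z = y) :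
    ∃ σ : E →+* T, ∀ y, lam (σ y) = y := by
  classical
  let 𝒮 : Set (Subalgebra F T) := {C | ∀ x ∈ C, lam x = 0 → x = 0}
  have hbot : (⊥ : Subalgebra F T) ∈ 𝒮 := by
    intro x hx h0
    obtain ⟨a, rfl⟩ := Algebra.mem_bot.1 hx
    rw [AlgHom.commutes, map_eq_zero_iff _ (algebraMap F E).injective] at h0
    rw [h0, map_zero]
  obtain ⟨C, -, hC⟩ := zorn_le_nonempty₀ 𝒮 (by
    intro c hc hch C₀ hC₀
    refine ⟨sSup c, ?_, fun z hz => le_sSup hz⟩
    intro x hx h0
    have : Nonempty c := ⟨⟨C₀, hC₀⟩⟩
    rw [sSup_eq_iSup', ← SetLike.mem_coe,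
      Subalgebra.coe_iSup_of_directed (directedOn_iff_directed.1 hch.directedOn), Set.mem_iUnion] at hx
    obtain ⟨D, hxD⟩ := hx
    exact hc D.2 x hxD h0) ⊥ hbot
  have hCinj : ∀ x ∈ C, lam x = 0 → x = 0 := hC.prop
  -- `C` is a field
  have hinj : Function.Injective (lam.comp C.val) := by
    rw [injective_iff_map_eq_zero]
    intro x hx
    exact Subtype.ext (hCinj x.1 x.2 hx)
  have hdom : IsDomain C := hinj.isDomain (lam.comp C.val)
  have hint : Algebra.IsIntegral F C := by
    refine ⟨fun x => ?_⟩
    rw [← isIntegral_algHom_iff (lam.comp C.val) hinj]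
    exact (Algebra.IsAlgebraic.isAlgebraic _).isIntegral
  have hfield : IsField C := isField_of_isIntegral_of_isField' (Field.toIsField F)
  let _ : Field C := hfield.toField
  let lamC : C →+* E := (lam.comp C.val : C →ₐ[F] E)
  let _ : Algebra C E := lamC.toAlgebra
  have hch : CharZero C := ⟨fun a b hab => by
    have h1 : lamC (a : C) = lamC (b : C) := congrArg lamC hab
    rw [map_natCast, map_natCast] at h1
    exact Nat.cast_injective h1⟩
  have hsurj : ∀ y : E, ∃ x : C, lam (x : T) = y := by
    intro y
    have hy : IsIntegral C y := by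
      have h1 : IsIntegral F y := (Algebra.IsAlgebraic.isAlgebraic y).isIntegral
      obtain ⟨p, hp, h0⟩ := h1
      refine ⟨p.map (algebraMap F C), hp.map _, ?_⟩
      rw [Polynomial.eval₂_map]
      have h2 : (algebraMap C E).comp (algebraMap F C) = algebraMap F E := by
        ext a
        show lam (algebraMap F T a) = _
        exact lam.commutes a
      rw [h2]
      exact h0
    set P := minpoly C y with hP
    have hPm : P.Monic := minpoly.monic hy
    have hP0 : P.eval₂ lamC y = 0 := minpoly.aeval C y
    have hsep : P.Separable := (minpoly.irreducible hy).separable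
    have hPd : P.derivative.eval₂ lamC y ≠ 0 := hsep.aeval_derivative_ne_zero hP0
    set PT : Polynomial T := P.map (C.val : C →+* T) with hPT
    have hmap : PT.map (lam : T →+* E) = P.map lamC := by
      rw [hPT, Polynomial.map_map]
      rfl
    obtain ⟨z, hz0, hzy⟩ := hroot PT y (hPm.map _) (by
      rw [hmap, Polynomial.eval_map]
      exact hP0) (by
      rw [hmap, Polynomial.derivative_map, Polynomial.eval_map]
      exact hPd)
    -- the algebra generated by `z`
    set C2 : Subalgebra F T := (Algebra.adjoin C {z}).restrictScalars F with hC2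
    have hle : C ≤ C2 := by
      intro x hx
      have : algebraMap C T ⟨x, hx⟩ ∈ Algebra.adjoin C {z} := Subalgebra.algebraMap_mem _ _
      exact this
    have hzC2 : z ∈ C2 := Algebra.self_mem_adjoin_singleton C z
    have hC2S : C2 ∈ 𝒮 := by
      intro x hx h0
      have hx' : x ∈ Algebra.adjoin C {z} := hx
      rw [Algebra.adjoin_singleton_eq_range_aeval] at hx'
      obtain ⟨q, rfl⟩ := hx'
      have h1 : q.eval₂ lamC y = 0 := by
        have h2 := Polynomial.hom_eval₂ q (algebraMap C T) (lam : T →+* E) z
        have h3 : ((lam : T →+* E)) (Polynomial.eval₂ (algebraMap C T) z q) = 0 := h0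
        rw [h3] at h2
        have h4 : (lam : T →+* E).comp (algebraMap C T) = lamC := rfl
        have h5 : ((lam : T →+* E)) z = y := hzy
        rw [h4, h5] at h2
        exact h2.symm
      obtain ⟨r, hr⟩ := minpoly.dvd C y (p := q) h1
      show Polynomial.aeval z q = 0
      rw [hr, map_mul]
      have h6 : Polynomial.aeval z (minpoly C y) = 0 := by
        rw [← hP, Polynomial.aeval_def]
        rw [hPT, Polynomial.eval_map] at hz0
        exact hz0
      rw [h6, zero_mul]
    have hmax : C2 ≤ C := hC.le_of_ge hC2S hle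
    exact ⟨⟨z, hmax hzC2⟩, hzy⟩
  have hbij : Function.Bijective lamC := by
    refine ⟨hinj, fun y => ?_⟩
    obtain ⟨x, hx⟩ := hsurj y
    exact ⟨x, hx⟩
  let e : C ≃+* E := RingEquiv.ofBijective lamC hbij
  refine ⟨(C.val : C →+* T).comp (e.symm : E →+* C), fun y => ?_⟩
  have := e.apply_symm_apply y
  exact this

end Pool.Agent.Work.MP_bfb3ed_al
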