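import Pool.Agent.Work.MP_bfb3ed_al.Core
import Pool.Agent.Work.MP_bfb3ed_al.Sec
import Pool.Agent.Work.MP_bfb3ed_al.Impl
import Pool.Agent.Work.MP_bfb3ed_al.Base

set_option autoImplicit false

open Polynomial Topology unitInterval Filter

namespace Pool.Agent.Work.MP_bfb3ed_al

/-- the ring of good pairs -/
def TT : Subring ((ℕ → L) × ℝ) where
  carrier := {p | Good p.1 p.2}
  mul_mem' := fun h h' => good_mul h h'
  one_mem' := by
    have := good_const_int 1
    simpa using! this
  add_mem' := fun h h' => good_add h h'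
  zero_mem' := by
    have := good_const_int 0
    simpa using! this
  neg_mem' := fun h => good_neg h

/-- coordinates -/
noncomputable def prT (q : ℕ) : TT →+* L := (Pi.evalRingHom (fun _ : ℕ => L) q).comp ((RingHom.fst _ _).comp TT.subtype)

/-- the real value -/
noncomputable def lamT : TT →+* ℝ := (RingHom.snd _ _).comp TT.subtype

lemma monic_eval₂ {R A : Type*} [CommRing R] [CommRing A] (P : Polynomial R) (hP : P.Monic)
    (φ : R →+* A) (x : A) :
    P.eval₂ φ x = x ^ P.natDegree + ∑ i : Fin P.natDegree, φ (P.coeff i) * x ^ (i : ℕ) := by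
  conv_lhs => rw [hP.as_sum]
  rw [Polynomial.eval₂_add, Polynomial.eval₂_X_pow, Polynomial.eval₂_finsetSum, Finset.sum_range]
  simp [Polynomial.eval₂_mul]

lemma monic_derivative_eval₂ {R A : Type*} [CommRing R] [CommRing A] (P : Polynomial R)
    (hP : P.Monic) (φ : R →+* A) (x : A) :
    P.derivative.eval₂ φ x = P.natDegree • x ^ (P.natDegree - 1) +
      ∑ i : Fin P.natDegree, φ (P.coeff i) * ((i : ℕ) • x ^ ((i : ℕ) - 1)) := by
  conv_lhs => rw [hP.as_sum]
  rw [Polynomial.derivative_add, Polynomial.derivative_X_pow, Polynomial.derivative_sum,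
    Polynomial.eval₂_add, Polynomial.eval₂_finsetSum, Finset.sum_range]
  simp [Polynomial.eval₂_mul, Polynomial.derivative_X_pow, nsmul_eq_mul]

lemma rel_pow {w : L} {f : C(I, ℝ)} (h : rel w f) (n : ℕ) : rel (w ^ n) (f ^ n) := by
  induction n with
  | zero => simpa using rel_one
  | succ n ih =>
    rw [pow_succ, pow_succ]
    exact rel_mul ih h

lemma rel_sum {n : ℕ} {w : Fin n → L} {f : Fin n → C(I, ℝ)} (h : ∀ i, rel (w i) (f i)) :
    rel (∑ i, w i) (∑ i, f i) := by
  classical
  have : ∀ s : Finset (Fin n), rel (∑ i ∈ s, w i) (∑ i ∈ s, f i) := by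
    intro s
    induction s using Finset.induction_on with
    | empty => simpa using rel_zero
    | insert a s ha ih =>
      rw [Finset.sum_insert ha, Finset.sum_insert ha]
      exact rel_add (h a) ih
  exact this _

/-- an approximate root gives a root -/
lemma exists_root_near (P : Polynomial L) (hP : P.Monic) (w : L) (hw : v K0 (P.eval w) < 1) :
    ∃ a : L, P.eval a = 0 ∧ v K0 (a - w) < 1 := by
  by_contra hcon
  push Not at hcon
  have hsplit : P.Splits := IsAlgClosed.splits _
  have h4 := hsplit.eval_eq_prod_roots_of_monic hP w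
  rw [h4, map_multiset_prod, Multiset.map_map] at hw
  refine absurd hw (not_lt.2 ?_)
  have key : ∀ s : Multiset L, (∀ a ∈ s, P.eval a = 0) →
      1 ≤ (Multiset.map (⇑(v K0) ∘ fun a => w - a) s).prod := by
    intro s
    induction s using Multiset.induction_on with
    | empty => simp
    | cons a s ih =>
      intro h
      rw [Multiset.map_cons, Multiset.prod_cons]
      have h1 := ih (fun b hb => h b (Multiset.mem_cons_of_mem hb))
      have h2 := hcon a (h a (Multiset.mem_cons_self a s))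
      rw [Valuation.map_sub_swap] at h2
      exact one_le_mul h2 h1
  exact key _ (fun a ha => by
    rw [Polynomial.mem_roots hP.ne_zero] at ha
    exact ha)

theorem root_lift (P : Polynomial TT) (y : ℝ) (hP : P.Monic) (h0 : (P.map lamT).eval y = 0)
    (h1 : (P.map lamT).derivative.eval y ≠ 0) : ∃ z : TT, P.eval z = 0 ∧ lamT z = y := by
  classical
  set n := P.natDegree with hn
  have hG : ∀ i : Fin n, Good (P.coeff i).1.1 (P.coeff i).1.2 := fun i => (P.coeff i).2
  choose f hf1 hf2 using hG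
  rw [Polynomial.eval_map] at h0
  have h00 := h0
  rw [monic_eval₂ P hP] at h0
  rw [Polynomial.derivative_map, Polynomial.eval_map, monic_derivative_eval₂ P hP] at h1
  obtain ⟨r, hr, hE⟩ := exists_impl n (fun i => (P.coeff i).1.2) y h0 (by
    simpa [nsmul_eq_mul] using! h1) (fun q i => f i q) (by
      rw [tendsto_pi_nhds]
      exact hf2) (by
      rw [eventually_all]
      intro i
      filter_upwards [hf1 i] with q hq
      exact hq.2)
  have hrel : ∀ᶠ q in atTop, ∀ i : Fin n, rel ((P.coeff i).1.1 q) (f i q) := by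
    rw [eventually_all]
    intro i
    filter_upwards [hf1 i] with q hq
    exact hq.1
  have hkey : ∀ q : ℕ, Gf n (fun i => f i q, r q) = 0 → (∀ s, Gd n (fun i => f i q, r q) s ≠ 0) →
      (∀ i : Fin n, rel ((P.coeff i).1.1 q) (f i q)) →
      ∃ w : L, P.eval₂ (prT q) w = 0 ∧ rel w (r q) := by
    intro q hq1 hq2 hq3
    -- `r q ∈ S`
    set A : Polynomial S := Polynomial.X ^ n +
      ∑ i : Fin n, Polynomial.C (⟨f i q, (hq3 i).choose⟩ : S) * Polynomial.X ^ (i : ℕ) with hA
    have hdeg : (∑ i : Fin n, Polynomial.C (⟨f i q, (hq3 i).choose⟩ : S) *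
        Polynomial.X ^ (i : ℕ)).degree < (n : WithBot ℕ) := by
      refine (Polynomial.degree_sum_le _ _).trans_lt ?_
      refine (Finset.sup_lt_iff (WithBot.bot_lt_coe n)).2 (fun i _ => ?_)
      refine (Polynomial.degree_C_mul_X_pow_le _ _).trans_lt ?_
      exact WithBot.coe_lt_coe.2 (Nat.cast_lt.2 i.2)
    have hAm : A.Monic := Polynomial.monic_X_pow_add hdeg
    have hA1 : A.eval₂ S.subtype (r q) = 0 := by
      rw [← hq1, hA]
      simp [Polynomial.eval₂_add, Polynomial.eval₂_finsetSum, Polynomial.eval₂_mul, Gf]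
    have hA2 : A.derivative.eval₂ S.subtype (r q) = Gd n (fun i => f i q, r q) := by
      rw [hA]
      simp [Polynomial.eval₂_add, Polynomial.eval₂_finsetSum, Polynomial.eval₂_mul, Gd,
        Polynomial.derivative_X_pow, nsmul_eq_mul]
    have hrS : r q ∈ S := root_mem A hAm (r q) hA1 (by rw [hA2]; exact hq2)
    set w0 : L := ιS ⟨r q, hrS⟩ with hw0
    have hw0r : rel w0 (r q) := rel_ιS ⟨r q, hrS⟩
    have hval : rel (P.eval₂ (prT q) w0) (Gf n (fun i => f i q, r q)) := by
      rw [monic_eval₂ P hP]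
      unfold Gf
      refine rel_add (rel_pow hw0r n) (rel_sum (fun i => ?_))
      exact rel_mul (hq3 i) (rel_pow hw0r _)
    rw [hq1] at hval
    obtain ⟨h3, h4⟩ := hval
    have h5 : ιS ⟨0, h3⟩ = 0 := map_zero ιS
    rw [h5, sub_zero, ← Polynomial.eval_map] at h4
    obtain ⟨a, ha1, ha2⟩ := exists_root_near (P.map (prT q)) (hP.map _) w0 h4
    rw [Polynomial.eval_map] at ha1
    exact ⟨a, ha1, hrS, ha2⟩
  have hn0 : n ≠ 0 := by
    intro h
    have : P = 1 := hP.natDegree_eq_zero.1 h
    rw [this, Polynomial.eval₂_one] at h00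
    exact one_ne_zero h00
  have hroot : ∀ q : ℕ, ∃ w : L, P.eval₂ (prT q) w = 0 := by
    intro q
    obtain ⟨a, ha⟩ := IsAlgClosed.exists_root (P.map (prT q)) (by
      rw [hP.degree_map, Polynomial.degree_eq_natDegree hP.ne_zero]
      exact_mod_cast hn0)
    rw [Polynomial.IsRoot.def, Polynomial.eval_map] at ha
    exact ⟨a, ha⟩
  have hall : ∀ q : ℕ, ∃ w : L, P.eval₂ (prT q) w = 0 ∧
      (Gf n (fun i => f i q, r q) = 0 → (∀ s, Gd n (fun i => f i q, r q) s ≠ 0) →
      (∀ i : Fin n, rel ((P.coeff i).1.1 q) (f i q)) → rel w (r q)) := by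
    intro q
    by_cases hc : Gf n (fun i => f i q, r q) = 0 ∧ (∀ s, Gd n (fun i => f i q, r q) s ≠ 0) ∧
      (∀ i : Fin n, rel ((P.coeff i).1.1 q) (f i q))
    · obtain ⟨w, hw1, hw2⟩ := hkey q hc.1 hc.2.1 hc.2.2
      exact ⟨w, hw1, fun _ _ _ => hw2⟩
    · obtain ⟨w, hw⟩ := hroot q
      exact ⟨w, hw, fun h h' h'' => absurd ⟨h, h', h''⟩ hc⟩
  choose z hz1 hz2 using hall
  have hgood : Good z y := by
    refine ⟨r, ?_, hr⟩
    filter_upwards [hE, hrel] with q hq hq'
    exact ⟨hz2 q hq.1 hq.2.1 hq', hq.2.2⟩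
  refine ⟨⟨(z, y), hgood⟩, ?_, rfl⟩
  apply Subtype.ext
  refine Prod.ext (funext fun q => ?_) ?_
  · have h6 := Polynomial.hom_eval₂ P (RingHom.id TT) (prT q) ⟨(z, y), hgood⟩
    rw [RingHom.comp_id] at h6
    have h7 : prT q ⟨(z, y), hgood⟩ = z q := rfl
    rw [h7, hz1 q] at h6
    exact h6
  · have h6 := Polynomial.hom_eval₂ P (RingHom.id TT) lamT ⟨(z, y), hgood⟩
    rw [RingHom.comp_id] at h6
    have h7 : lamT ⟨(z, y), hgood⟩ = y := rfl
    rw [h7] at h6
    exact h6.trans h00

theorem exists_Phi : ∃ Φ : ℕ → (ℝ →+* L), ∀ y, Good (fun q => Φ q y) y := by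
  obtain ⟨F, hF, aR, ψ, halg, hgood⟩ := exists_base
  let ιT : F →+* TT := (RingHom.prod (RingHom.pi ψ) aR).codRestrict TT hgood
  let _ : Algebra F TT := ιT.toAlgebra
  let _ : Algebra F ℝ := aR.toAlgebra
  let lam : TT →ₐ[F] ℝ := { lamT with commutes' := fun _ => rfl }
  have : Algebra.IsAlgebraic F ℝ := ⟨fun y => by
    obtain ⟨P, hP, h0⟩ := halg y
    exact ⟨P, hP, h0⟩⟩
  obtain ⟨sec, hsec⟩ := exists_section lam (fun P y hP h0 h1 => root_lift P y hP h0 h1)
  refine ⟨fun q => (prT q).comp sec, fun y => ?_⟩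
  have h1 : Good (sec y).1.1 (sec y).1.2 := (sec y).2
  have h2 : (sec y).1.2 = y := hsec y
  rw [h2] at h1
  exact h1

end Pool.Agent.Work.MP_bfb3ed_al
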