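import Mathlib

set_option autoImplicit false

open Polynomial PowerSeries

namespace Pool.Agent.Work.MP_bfb3ed_al

/-! ### an algebraically closed valued field with small residue rings -/

variable (k : Type) [Field k]

/-- the field: an algebraic closure of the field of Laurent series -/
abbrev LL : Type := AlgebraicClosure (LaurentSeries k)

/-- power series inside -/
noncomputable abbrev ιP : PowerSeries k →+* LL k := algebraMap (PowerSeries k) (LL k)

/-- polynomials inside -/
noncomputable def ιp : Polynomial k →+* LL k := (ιP k).comp Polynomial.coeToPowerSeries.ringHom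

lemma ιp_apply (p : Polynomial k) : ιp k p = ιP k (p : PowerSeries k) := rfl

lemma ιP_injective : Function.Injective (ιP k) := by
  have h1 : (ιP k) = (algebraMap (LaurentSeries k) (LL k)).comp
      (algebraMap (PowerSeries k) (LaurentSeries k)) :=
    IsScalarTower.algebraMap_eq (PowerSeries k) (LaurentSeries k) (LL k)
  rw [h1]
  exact (algebraMap (LaurentSeries k) (LL k)).injective.comp
    (IsFractionRing.injective (PowerSeries k) (LaurentSeries k))

lemma ιp_injective : Function.Injective (ιp k) :=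
  (ιP_injective k).comp (Polynomial.coe_injective k)

/-- the uniformizer -/
noncomputable def eps : LL k := ιP k PowerSeries.X

lemma eps_ne_zero : eps k ≠ 0 := by
  unfold eps
  rw [Ne, map_eq_zero_iff _ (ιP_injective k)]
  exact PowerSeries.X_ne_zero

lemma exists_W : ∃ W : ValuationSubring (LL k), (∀ f, ιP k f ∈ W) ∧ W.valuation (eps k) < 1 := by
  let A : Subring (LL k) := (ιP k).range
  let x : A := ⟨eps k, ⟨PowerSeries.X, rfl⟩⟩
  have hI : Ideal.span {x} ≠ ⊤ := by
    rw [Ne, Ideal.span_singleton_eq_top]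
    intro hu
    obtain ⟨y, hy⟩ := isUnit_iff_exists_inv.1 hu
    obtain ⟨g, hg⟩ := y.2
    have h1 : ιP k (PowerSeries.X * g) = ιP k 1 := by
      rw [map_mul, map_one, hg]
      exact congrArg Subtype.val hy
    have h2 := ιP_injective k h1
    have h3 := congrArg PowerSeries.constantCoeff h2
    simp at h3
  obtain ⟨W, hW1, hW2⟩ := Ideal.image_subset_nonunits_valuationSubring _ hI
  refine ⟨W, fun f => hW1 ⟨f, rfl⟩, ?_⟩
  rw [← ValuationSubring.mem_nonunits_iff]
  exact hW2 ⟨x, Ideal.mem_span_singleton_self x, rfl⟩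

/-- the valuation ring -/
noncomputable def W : ValuationSubring (LL k) := (exists_W k).choose

lemma ιP_mem (f : PowerSeries k) : ιP k f ∈ W k := (exists_W k).choose_spec.1 f

/-- the valuation -/
noncomputable abbrev v : Valuation (LL k) (W k).ValueGroup := (W k).valuation

lemma v_eps : v k (eps k) < 1 := (exists_W k).choose_spec.2

lemma v_ιP (f : PowerSeries k) : v k (ιP k f) ≤ 1 := (ValuationSubring.valuation_le_one_iff _ _).2 (ιP_mem k f)

lemma mem_W_of_isIntegral {x : LL k} (hx : IsIntegral (PowerSeries k) x) : v k x ≤ 1 := by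
  have h1 : IsIntegral (W k) x := by
    obtain ⟨p, hp, h0⟩ := hx
    let φ : PowerSeries k →+* W k := (ιP k).codRestrict (W k).toSubring (ιP_mem k)
    refine ⟨p.map φ, hp.map φ, ?_⟩
    rw [Polynomial.eval₂_map]
    exact h0
  obtain ⟨y, hy⟩ := (IsIntegrallyClosed.isIntegral_iff (R := W k) (K := LL k)).1 h1
  rw [← hy]
  exact (W k).valuation_le_one y

lemma exists_pow_integral (y : LL k) : ∃ n : ℕ, IsIntegral (PowerSeries k) (eps k ^ n * y) := by
  have h1 : IsAlgebraic (LaurentSeries k) y := Algebra.IsAlgebraic.isAlgebraic y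
  have h2 : IsAlgebraic (PowerSeries k) y :=
    (IsFractionRing.isAlgebraic_iff (PowerSeries k) (LaurentSeries k) (LL k)).2 h1
  obtain ⟨d, hd, hint⟩ := h2.exists_integral_multiple
  -- `d = X ^ n * u`, `u` a unit
  obtain ⟨n, u, hu, hdu⟩ : ∃ (n : ℕ) (u : PowerSeries k), IsUnit u ∧ d = PowerSeries.X ^ n * u :=
    ⟨d.order.toNat, d.divXPowOrder, PowerSeries.isUnit_divided_by_X_pow_order hd,
      (PowerSeries.X_pow_order_mul_divXPowOrder).symm⟩
  refine ⟨n, ?_⟩
  obtain ⟨w, hw⟩ := hu.exists_left_inv
  have h3 : eps k ^ n * y = w • (d • y) := by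
    rw [smul_smul, hdu, ← mul_assoc, mul_comm w, mul_assoc, hw, mul_one, Algebra.smul_def, map_pow]
    rfl
  rw [h3]
  exact hint.smul w

lemma exists_pow_lt (y : LL k) : ∃ n : ℕ, v k (eps k ^ n * y) < 1 := by
  obtain ⟨n, hn⟩ := exists_pow_integral k y
  refine ⟨n + 1, ?_⟩
  rw [pow_succ', mul_assoc, map_mul]
  exact mul_lt_one_of_lt_of_le (v_eps k) (mem_W_of_isIntegral k hn)

/-- elements algebraic over the polynomial ring -/
def DD : Set (LL k) := {z | ∃ Q : Polynomial (Polynomial k), Q ≠ 0 ∧ Q.eval₂ (ιp k) z = 0}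

lemma countable_DD [Countable k] : (DD k).Countable := by
  classical
  have h0 : Countable (Polynomial k) := by
    rw [← Cardinal.mk_le_aleph0_iff]
    refine Polynomial.cardinalMk_le_max.trans ?_
    simp
  have h1 : Countable (Polynomial (Polynomial k)) := by
    rw [← Cardinal.mk_le_aleph0_iff]
    refine Polynomial.cardinalMk_le_max.trans ?_
    simp
  have h2 : DD k ⊆ ⋃ Q : Polynomial (Polynomial k), ((Q.map (ιp k)).roots.toFinset : Set (LL k)) := by
    rintro z ⟨Q, hQ, hz⟩
    rw [Set.mem_iUnion]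
    refine ⟨Q, ?_⟩
    rw [Finset.mem_coe, Multiset.mem_toFinset, Polynomial.mem_roots, Polynomial.IsRoot.def,
      Polynomial.eval_map]
    · exact hz
    · rwa [Ne, Polynomial.map_eq_zero_iff (ιp_injective k)]
  exact (Set.countable_iUnion (fun Q => (Finset.finite_toSet _).countable)).mono h2

lemma prod_gt {Γ : Type*} [LinearOrderedCommGroupWithZero Γ] {c : Γ} (hc : 0 < c) (s : Multiset Γ)
    (hs : ∀ x ∈ s, c < x) : c ^ s.card ≤ s.prod ∧ (s ≠ 0 → c ^ s.card < s.prod) := by
  induction s using Multiset.induction_on with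
  | empty => simp
  | cons a s ih =>
    have h1 := ih (fun x hx => hs x (Multiset.mem_cons_of_mem hx))
    have h2 := hs a (Multiset.mem_cons_self a s)
    have hpos : 0 < s.prod := lt_of_lt_of_le (pow_pos hc _) h1.1
    have h3 : c ^ (Multiset.card (a ::ₘ s)) < (a ::ₘ s).prod := by
      rw [Multiset.card_cons, Multiset.prod_cons, pow_succ']
      exact (mul_le_mul_right h1.1 c).trans_lt (mul_lt_mul_of_pos_right h2 hpos)
    exact ⟨h3.le, fun _ => h3⟩

lemma trunc_approx (c : PowerSeries k) (M : ℕ) :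
    v k (ιp k (PowerSeries.trunc M c) - ιP k c) ≤ v k (eps k) ^ M := by
  have h1 : (PowerSeries.X : PowerSeries k) ^ M ∣ ((PowerSeries.trunc M c : Polynomial k) : PowerSeries k) - c := by
    rw [PowerSeries.X_pow_dvd_iff]
    intro m hm
    rw [map_sub, Polynomial.coeff_coe, PowerSeries.coeff_trunc, if_pos hm, sub_self]
  obtain ⟨u, hu⟩ := h1
  rw [ιp_apply, ← map_sub, hu, map_mul, map_mul, map_pow, map_pow]
  calc v k (ιP k PowerSeries.X) ^ M * v k (ιP k u) ≤ v k (ιP k PowerSeries.X) ^ M * 1 := by
        gcongr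
        exact v_ιP k u
    _ = _ := by rw [mul_one]; rfl

/-- integral elements are approximated by algebraic elements -/
lemma approx_integral {z : LL k} (hz : IsIntegral (PowerSeries k) z) (n : ℕ) :
    ∃ d ∈ DD k, v k (z - d) ≤ v k (eps k) ^ n := by
  obtain ⟨P, hP, h0⟩ := hz
  have hvz : v k z ≤ 1 := mem_W_of_isIntegral k ⟨P, hP, h0⟩
  set N := P.natDegree with hN
  set M := N * n with hM
  set Q : Polynomial (Polynomial k) := Polynomial.X ^ N +
    ∑ i ∈ Finset.range N, Polynomial.C (PowerSeries.trunc M (P.coeff i)) * Polynomial.X ^ i with hQ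
  have hdeg : (∑ i ∈ Finset.range N,
      (Polynomial.C (PowerSeries.trunc M (P.coeff i)) * Polynomial.X ^ i : Polynomial (Polynomial k))).degree
      < N := by
    refine (Polynomial.degree_sum_le _ _).trans_lt ?_
    refine (Finset.sup_lt_iff (WithBot.bot_lt_coe N)).2 (fun i hi => ?_)
    refine (Polynomial.degree_C_mul_X_pow_le i _).trans_lt ?_
    exact WithBot.coe_lt_coe.2 (Nat.cast_lt.2 (Finset.mem_range.1 hi))
  have hQm : Q.Monic := Polynomial.monic_X_pow_add hdeg
  have hQd : Q.natDegree = N := by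
    refine Polynomial.natDegree_eq_of_degree_eq_some ?_
    rw [hQ, Polynomial.degree_add_eq_left_of_degree_lt (by rw [Polynomial.degree_X_pow]; exact hdeg),
      Polynomial.degree_X_pow]
  have hv : v k (Q.eval₂ (ιp k) z) ≤ v k (eps k) ^ M := by
    have h1 : Q.eval₂ (ιp k) z = Q.eval₂ (ιp k) z - P.eval₂ (ιP k) z := by
      have : P.eval₂ (ιP k) z = 0 := h0
      rw [this, sub_zero]
    rw [h1]
    have h2 : P.eval₂ (ιP k) z = z ^ N + ∑ i ∈ Finset.range N, ιP k (P.coeff i) * z ^ i := by
      conv_lhs => rw [hP.as_sum]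
      simp [Polynomial.eval₂_add, Polynomial.eval₂_finsetSum, Polynomial.eval₂_mul]
      rfl
    have h3 : Q.eval₂ (ιp k) z = z ^ N + ∑ i ∈ Finset.range N,
        ιp k (PowerSeries.trunc M (P.coeff i)) * z ^ i := by
      rw [hQ]
      simp [Polynomial.eval₂_add, Polynomial.eval₂_finsetSum, Polynomial.eval₂_mul]
    rw [h2, h3, add_sub_add_left_eq_sub, ← Finset.sum_sub_distrib]
    refine Valuation.map_sum_le _ (fun i _ => ?_)
    rw [← sub_mul, map_mul, map_pow]
    calc v k (ιp k (PowerSeries.trunc M (P.coeff i)) - ιP k (P.coeff i)) * v k z ^ i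
        ≤ v k (eps k) ^ M * 1 := by
          gcongr
          · exact trunc_approx k _ _
          · exact pow_le_one' hvz i
      _ = _ := mul_one _
  by_contra hcon
  push Not at hcon
  have hroots : ∀ d ∈ (Q.map (ιp k)).roots, v k (eps k) ^ n < v k (z - d) := by
    intro d hd
    apply hcon
    refine ⟨Q, hQm.ne_zero, ?_⟩
    rw [Polynomial.mem_roots (hQm.map _).ne_zero, Polynomial.IsRoot.def, Polynomial.eval_map] at hd
    exact hd
  have hsplit : (Q.map (ιp k)).Splits := IsAlgClosed.splits _
  have h4 := hsplit.eval_eq_prod_roots_of_monic (hQm.map _) z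
  rw [Polynomial.eval_map] at h4
  have hcard : (Q.map (ιp k)).roots.card = N := by
    rw [← hsplit.natDegree_eq_card_roots, hQm.natDegree_map, hQd]
  have hpos : 0 < v k (eps k) ^ n := pow_pos ((Valuation.pos_iff _).2 (eps_ne_zero k)) _
  rw [h4, map_multiset_prod, Multiset.map_map] at hv
  have h5 := prod_gt hpos ((Q.map (ιp k)).roots.map (v k ∘ fun a => z - a)) (by
    intro x hx
    obtain ⟨d, hd, rfl⟩ := Multiset.mem_map.1 hx
    exact hroots d hd)
  rw [Multiset.card_map, hcard, ← pow_mul] at h5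
  by_cases hN0 : N = 0
  · -- degree zero is impossible
    have : P = 1 := hP.natDegree_eq_zero.1 hN0
    rw [this] at h0
    simp at h0
  · have h6 : ((Q.map (ιp k)).roots.map (v k ∘ fun a => z - a)) ≠ 0 := by
      intro h7
      have := congrArg Multiset.card h7
      rw [Multiset.card_map, hcard] at this
      exact hN0 this
    have h7 := h5.2 h6
    rw [hM, mul_comm] at hv
    exact absurd hv (not_le.2 h7)

/-- all elements are approximated by algebraic elements -/
lemma approx (z : LL k) (n : ℕ) : ∃ d ∈ DD k, v k (z - d) ≤ v k (eps k) ^ n := by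
  obtain ⟨m, hm⟩ := exists_pow_integral k z
  obtain ⟨d, ⟨Q, hQ, hQ0⟩, hd⟩ := approx_integral k hm (n + m)
  have he : eps k ^ m ≠ 0 := pow_ne_zero _ (eps_ne_zero k)
  refine ⟨d / eps k ^ m, ⟨Q.comp (Polynomial.C (Polynomial.X ^ m) * Polynomial.X), ?_, ?_⟩, ?_⟩
  · rw [Ne, Polynomial.comp_C_mul_X_eq_zero_iff]
    · exact hQ
    · exact mem_nonZeroDivisors_of_ne_zero (pow_ne_zero _ Polynomial.X_ne_zero)
  · rw [Polynomial.eval₂_comp]
    have : Polynomial.eval₂ (ιp k) (d / eps k ^ m) (Polynomial.C (Polynomial.X ^ m) * Polynomial.X) = d := by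
      rw [Polynomial.eval₂_mul, Polynomial.eval₂_C, Polynomial.eval₂_X, map_pow]
      have h1 : ιp k Polynomial.X = eps k := by
        rw [ιp_apply, Polynomial.coe_X]
        rfl
      rw [h1, mul_div_cancel₀ _ he]
    rw [this]
    exact hQ0
  · have h1 : z - d / eps k ^ m = (eps k ^ m * z - d) / eps k ^ m := by
      field_simp
    rw [h1, map_div₀, map_pow]
    have hpos : 0 < v k (eps k) ^ m := pow_pos ((Valuation.pos_iff _).2 (eps_ne_zero k)) _
    rw [div_le_iff₀ hpos, ← pow_add]
    exact hd

/-- the cardinality -/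
lemma continuum_le : Cardinal.continuum ≤ Cardinal.mk (LL k) := by
  have h1 : Cardinal.mk (ℕ → Bool) ≤ Cardinal.mk (LL k) := by
    refine Cardinal.mk_le_of_injective (f := fun g => ιP k (PowerSeries.mk (fun n => if g n then 1 else 0))) ?_
    intro g g' h
    have h2 := ιP_injective k h
    funext n
    have h3 := congrArg (PowerSeries.coeff n) h2
    simp only [PowerSeries.coeff_mk] at h3
    by_cases hg : g n = true <;> by_cases hg' : g' n = true
    · rw [hg, hg']
    · simp [hg, hg'] at h3
    · simp [hg, hg'] at h3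
    · simp only [Bool.not_eq_true] at hg hg'
      rw [hg, hg']
  simpa using h1

/-- constants -/
noncomputable def ic : k →+* LL k := (ιP k).comp (PowerSeries.C : k →+* PowerSeries k)

lemma v_ic (a : k) : v k (ic k a) ≤ 1 := v_ιP k _

end Pool.Agent.Work.MP_bfb3ed_al
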