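import Pool.Agent.Work.MP_bfb3ed_al.Fun
import Pool.Agent.Work.MP_bfb3ed_al.Val

set_option autoImplicit false

open Polynomial Topology unitInterval Filter

namespace Pool.Agent.Work.MP_bfb3ed_al

/-! ### the field `L`, and elements with residue in the ring of algebraic functions -/

/-- fractions of algebraic functions -/
abbrev K0 : Type := FractionRing S

instance countable_K0 : Countable K0 := by
  have h3 : Function.Surjective fun p : S × nonZeroDivisors S =>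
      IsLocalization.mk' (FractionRing S) p.1 p.2 := by
    intro x
    obtain ⟨a, b, h⟩ := IsLocalization.exists_mk'_eq (nonZeroDivisors S) x
    exact ⟨(a, b), h⟩
  exact h3.countable

/-- the algebraically closed field -/
abbrev L : Type := LL K0

/-- algebraic functions as elements of `L` -/
noncomputable def ιS : S →+* L := (ic K0).comp (algebraMap S K0)

lemma v_ιS (f : S) : v K0 (ιS f) ≤ 1 := v_ic K0 _

lemma v_ιS_eq {f : S} (hf : f ≠ 0) : v K0 (ιS f) = 1 := by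
  have h1 : algebraMap S K0 f ≠ 0 := by
    rwa [Ne, map_eq_zero_iff _ (IsFractionRing.injective S K0)]
  have h2 : ic K0 (algebraMap S K0 f) * ic K0 (algebraMap S K0 f)⁻¹ = 1 := by
    rw [← map_mul, mul_inv_cancel₀ h1, map_one]
  have h3 := congrArg (v K0) h2
  rw [map_mul, map_one] at h3
  have h4 : v K0 (ic K0 (algebraMap S K0 f)) ≤ 1 := v_ic K0 _
  have h5 : v K0 (ic K0 (algebraMap S K0 f)⁻¹) ≤ 1 := v_ic K0 _
  by_contra hne
  have h6 : v K0 (ic K0 (algebraMap S K0 f)) < 1 := lt_of_le_of_ne h4 hne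
  have := mul_lt_one_of_lt_of_le h6 h5
  rw [h3] at this
  exact lt_irrefl _ this

/-- `w` has residue `f` -/
def rel (w : L) (f : C(I, ℝ)) : Prop := ∃ h : f ∈ S, v K0 (w - ιS ⟨f, h⟩) < 1

lemma rel_unique {w : L} {f g : C(I, ℝ)} (hf : rel w f) (hg : rel w g) : f = g := by
  obtain ⟨h1, h2⟩ := hf
  obtain ⟨h3, h4⟩ := hg
  by_contra hne
  have h5 : (⟨f, h1⟩ : S) - ⟨g, h3⟩ ≠ 0 := by
    intro h
    apply hne
    exact sub_eq_zero.1 (congrArg Subtype.val h)
  have h6 := v_ιS_eq h5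
  have h7 : ιS ((⟨f, h1⟩ : S) - ⟨g, h3⟩) = (w - ιS ⟨g, h3⟩) - (w - ιS ⟨f, h1⟩) := by
    rw [map_sub]
    ring
  rw [h7] at h6
  exact absurd h6 (ne_of_lt (Valuation.map_sub_lt _ h4 h2))

lemma rel_v {w : L} {f : C(I, ℝ)} (hf : rel w f) : v K0 w ≤ 1 := by
  obtain ⟨h1, h2⟩ := hf
  have : w = (w - ιS ⟨f, h1⟩) + ιS ⟨f, h1⟩ := by ring
  rw [this]
  exact Valuation.map_add_le _ h2.le (v_ιS _)

lemma rel_ιS (f : S) : rel (ιS f) f := ⟨f.2, by simp⟩

lemma rel_add {w w' : L} {f g : C(I, ℝ)} (hf : rel w f) (hg : rel w' g) : rel (w + w') (f + g) := by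
  obtain ⟨h1, h2⟩ := hf
  obtain ⟨h3, h4⟩ := hg
  refine ⟨S.add_mem h1 h3, ?_⟩
  have : ιS ⟨f + g, S.add_mem h1 h3⟩ = ιS ⟨f, h1⟩ + ιS ⟨g, h3⟩ := by
    rw [← map_add]
    rfl
  rw [this, add_sub_add_comm]
  exact Valuation.map_add_lt _ h2 h4

lemma rel_mul {w w' : L} {f g : C(I, ℝ)} (hf : rel w f) (hg : rel w' g) : rel (w * w') (f * g) := by
  have hw' := rel_v hg
  obtain ⟨h1, h2⟩ := hf
  obtain ⟨h3, h4⟩ := hg
  refine ⟨S.mul_mem h1 h3, ?_⟩
  have h5 : ιS ⟨f * g, S.mul_mem h1 h3⟩ = ιS ⟨f, h1⟩ * ιS ⟨g, h3⟩ := by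
    rw [← map_mul]
    rfl
  have h6 : w * w' - ιS ⟨f, h1⟩ * ιS ⟨g, h3⟩ =
      (w - ιS ⟨f, h1⟩) * w' + ιS ⟨f, h1⟩ * (w' - ιS ⟨g, h3⟩) := by ring
  rw [h5, h6]
  refine Valuation.map_add_lt _ ?_ ?_
  · rw [map_mul]
    exact mul_lt_one_of_lt_of_le h2 hw'
  · rw [map_mul, mul_comm]
    exact mul_lt_one_of_lt_of_le h4 (v_ιS _)

lemma rel_one : rel 1 1 := ⟨S.one_mem, by
  have : ιS ⟨1, S.one_mem⟩ = 1 := map_one ιS
  rw [this]
  simp⟩

lemma rel_zero : rel 0 0 := ⟨S.zero_mem, by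
  have : ιS ⟨0, S.zero_mem⟩ = 0 := map_zero ιS
  rw [this]
  simp⟩

lemma rel_neg {w : L} {f : C(I, ℝ)} (hf : rel w f) : rel (-w) (-f) := by
  obtain ⟨h1, h2⟩ := hf
  refine ⟨S.neg_mem h1, ?_⟩
  have h5 : ιS ⟨-f, S.neg_mem h1⟩ = -ιS ⟨f, h1⟩ := by
    rw [← map_neg]
    rfl
  rw [h5, ← neg_sub', Valuation.map_neg]
  exact h2

/-- the tail condition: for large `q` the residues exist, match at the junctions,
and converge to the constant `y` -/
def Good (z : ℕ → L) (y : ℝ) : Prop :=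
  ∃ f : ℕ → C(I, ℝ), (∀ᶠ q in atTop, rel (z q) (f q) ∧ f q 1 = f (q + 1) 0) ∧
    Tendsto f atTop (𝓝 (ContinuousMap.const I y))

/-! ### closure properties of `Good` -/

lemma good_const_int (n : ℤ) : Good (fun _ => (n : L)) (n : ℝ) := by
  refine ⟨fun _ => (n : C(I, ℝ)), Eventually.of_forall (fun q => ⟨?_, by simp⟩), ?_⟩
  · have h := rel_ιS (n : S)
    have h1 : ιS (n : S) = (n : L) := map_intCast ιS n
    rw [h1] at h
    exact_mod_cast h
  · have : (n : C(I, ℝ)) = ContinuousMap.const I (n : ℝ) := by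
      ext s
      simp
    rw [this]
    exact tendsto_const_nhds

lemma good_add {z z' : ℕ → L} {y y' : ℝ} (h : Good z y) (h' : Good z' y') :
    Good (fun q => z q + z' q) (y + y') := by
  obtain ⟨f, h1, h2⟩ := h
  obtain ⟨f', h1', h2'⟩ := h'
  refine ⟨fun q => f q + f' q, ?_, ?_⟩
  · filter_upwards [h1, h1'] with q hq hq'
    refine ⟨rel_add hq.1 hq'.1, ?_⟩
    rw [ContinuousMap.add_apply, ContinuousMap.add_apply, hq.2, hq'.2]
  · exact h2.add h2'

lemma good_mul {z z' : ℕ → L} {y y' : ℝ} (h : Good z y) (h' : Good z' y') :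
    Good (fun q => z q * z' q) (y * y') := by
  obtain ⟨f, h1, h2⟩ := h
  obtain ⟨f', h1', h2'⟩ := h'
  refine ⟨fun q => f q * f' q, ?_, ?_⟩
  · filter_upwards [h1, h1'] with q hq hq'
    refine ⟨rel_mul hq.1 hq'.1, ?_⟩
    rw [ContinuousMap.mul_apply, ContinuousMap.mul_apply, hq.2, hq'.2]
  · exact h2.mul h2'

lemma good_neg {z : ℕ → L} {y : ℝ} (h : Good z y) : Good (fun q => - z q) (-y) := by
  obtain ⟨f, h1, h2⟩ := h
  refine ⟨fun q => - f q, ?_, ?_⟩
  · filter_upwards [h1] with q hq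
    refine ⟨rel_neg hq.1, ?_⟩
    rw [ContinuousMap.neg_apply, ContinuousMap.neg_apply, hq.2]
  · exact h2.neg

lemma good_inv {z : ℕ → L} {y : ℝ} (h : Good z y) (hy : y ≠ 0) (hz : ∀ q, z q ≠ 0) :
    Good (fun q => (z q)⁻¹) y⁻¹ := by
  obtain ⟨f, h1, h2⟩ := h
  have hu : IsUnit (ContinuousMap.const I y) := by
    rw [ContinuousMap.isUnit_iff_forall_ne_zero]
    intro s
    exact hy
  have h3 : ∀ᶠ q in atTop, IsUnit (f q) := h2.eventually (Units.isOpen.mem_nhds hu)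
  refine ⟨fun q => Ring.inverse (f q), ?_, ?_⟩
  · filter_upwards [h1, h3, (tendsto_add_atTop_nat 1).eventually h3] with q hq hq1 hq2
    obtain ⟨⟨hS, hv⟩, hm⟩ := hq
    have h4 : f q * Ring.inverse (f q) = 1 := Ring.mul_inverse_cancel _ hq1
    have h5 : f (q + 1) * Ring.inverse (f (q + 1)) = 1 := Ring.mul_inverse_cancel _ hq2
    constructor
    · obtain ⟨g, hgS, hg⟩ := inv_mem hS ((ContinuousMap.isUnit_iff_forall_ne_zero _).1 hq1)
      have h6 : Ring.inverse (f q) = g := by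
        have : Ring.inverse (f q) * (f q * g) = g := by
          rw [← mul_assoc, mul_comm _ (f q), h4, one_mul]
        rw [hg, mul_one] at this
        exact this
      rw [h6]
      refine ⟨hgS, ?_⟩
      have h7 : ιS ⟨f q, hS⟩ * ιS ⟨g, hgS⟩ = 1 := by
        rw [← map_mul]
        have : (⟨f q, hS⟩ : S) * ⟨g, hgS⟩ = 1 := Subtype.ext hg
        rw [this, map_one]
      have h8 : (z q)⁻¹ - ιS ⟨g, hgS⟩ = (z q)⁻¹ * (- ιS ⟨g, hgS⟩ * (z q - ιS ⟨f q, hS⟩)) := by
        have h9 : - ιS ⟨g, hgS⟩ * (z q - ιS ⟨f q, hS⟩) = 1 - z q * ιS ⟨g, hgS⟩ := by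
          rw [← h7]
          ring
        rw [h9, mul_sub, mul_one, ← mul_assoc, inv_mul_cancel₀ (hz q), one_mul]
      have hf0 : (⟨f q, hS⟩ : S) ≠ 0 := by
        intro h
        rw [h, map_zero, zero_mul] at h7
        exact zero_ne_one h7
      have h10 : v K0 (z q) = 1 := by
        have h11 := v_ιS_eq hf0
        have hlt : v K0 (z q - ιS ⟨f q, hS⟩) < v K0 (ιS ⟨f q, hS⟩) := by
          rw [h11]
          exact hv
        have h12 : v K0 ((z q - ιS ⟨f q, hS⟩) + ιS ⟨f q, hS⟩) = v K0 (ιS ⟨f q, hS⟩) :=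
          Valuation.map_add_eq_of_lt_right _ hlt
        rw [sub_add_cancel, h11] at h12
        exact h12
      rw [h8, map_mul, map_inv₀, h10, inv_one, one_mul, map_mul, mul_comm]
      refine mul_lt_one_of_lt_of_le hv ?_
      rw [Valuation.map_neg]
      exact v_ιS _
    · have h13 := DFunLike.congr_fun h4 1
      have h14 := DFunLike.congr_fun h5 0
      rw [ContinuousMap.mul_apply] at h13 h14
      rw [← hm] at h14
      have h15 : f q 1 ≠ 0 := (ContinuousMap.isUnit_iff_forall_ne_zero _).1 hq1 1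
      have h16 : f q 1 * Ring.inverse (f q) 1 = f q 1 * Ring.inverse (f (q + 1)) 0 := by
        rw [h13, h14]
        rfl
      exact mul_left_cancel₀ h15 h16
  · have h17 : ContinuousAt Ring.inverse ((hu.unit : C(I, ℝ)ˣ) : C(I, ℝ)) :=
      NormedRing.inverse_continuousAt hu.unit
    have h18 := h17.tendsto.comp (g := Ring.inverse) (f := f) (x := atTop) (by
      rw [IsUnit.unit_spec]
      exact h2)
    have h19 : Ring.inverse ((hu.unit : C(I, ℝ)ˣ) : C(I, ℝ)) = ContinuousMap.const I y⁻¹ := by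
      rw [IsUnit.unit_spec]
      have h20 : ContinuousMap.const I y * Ring.inverse (ContinuousMap.const I y) = 1 :=
        Ring.mul_inverse_cancel _ hu
      ext s
      have h21 := DFunLike.congr_fun h20 s
      rw [ContinuousMap.mul_apply] at h21
      exact eq_inv_of_mul_eq_one_right h21
    rw [h19] at h18
    exact h18

end Pool.Agent.Work.MP_bfb3ed_al
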