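import Mathlib

/-!
Interfaces of the modules for the embedding of the universal cover of SL2(R) in Sym(N).
-/

namespace Pool.Agent.Work.MP_bfb3ed_al

open scoped unitInterval MatrixGroups Matrix

/-- Properties of the ring of Nash functions on the unit interval. -/
structure NashRing (A : Subring C(I, ℝ)) : Prop where
  countable : Countable A
  domain : ∀ f ∈ A, ∀ g ∈ A, f * g = 0 → f = 0 ∨ g = 0
  linear : ∀ a b : ℚ, (⟨fun s : I => (a : ℝ) + b * (s : ℝ), by fun_prop⟩ : C(I, ℝ)) ∈ A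
  root : ∀ P : Polynomial C(I, ℝ), (∀ i, P.coeff i ∈ A) → ∀ f : C(I, ℝ), P.eval f = 0 →
    (∀ s, (P.derivative.eval f) s ≠ 0) → f ∈ A

/-- Properties of a subring `O` of an algebraically closed field `K` with a homomorphism to `A`. -/
structure Lifting (A : Type) [CommRing A] (K : Type) [Field K] (O : Subring K) (res : O →+* A) :
    Prop where
  hensel : ∀ (P : Polynomial O) (f : A), (P.map res).eval f = 0 →
    (P.map res).derivative.eval f ≠ 0 → ∃ r : O, P.eval r = 0 ∧ res r = f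
  indep : ∀ x : ℝ → A, ∃ r : ℝ → O, (∀ i, res (r i) = x i) ∧
    AlgebraicIndependent ℤ (fun i => (r i : K))
  dense : ∃ C : Set SL(2, K), C.Countable ∧ ∀ g : SL(2, K), ∃ c ∈ C, ∀ i j : Fin 2,
    ∃ h : (c⁻¹ * g) i j ∈ O, res ⟨_, h⟩ = (1 : Matrix (Fin 2) (Fin 2) A) i j

/-- A field `K` with a valuation ring `V`, a subfield `e k` of units, a topologically nilpotent
element `t` and a countable dense subfield `D`. -/
structure ValData (k : Type) [Field k] (K : Type) [Field K] (e : k →+* K) (t : K)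
    (V : ValuationSubring K) (D : Subfield K) : Prop where
  t_ne : t ≠ 0
  t_lt : V.valuation t < 1
  e_mem : ∀ a, e a ∈ V
  arch : ∀ y, ∃ N : ℕ, V.valuation (t ^ N * y) < 1
  D_countable : Countable D
  t_mem : t ∈ D
  e_mem_D : ∀ a, e a ∈ D
  dense : ∀ (y : K) (N : ℕ), ∃ d ∈ D, V.valuation (y - d) < V.valuation t ^ N
  card : Cardinal.continuum ≤ Cardinal.mk K

/-- A sequence of functions which matches at the junctions and tends uniformly to `y`,
realised by a sequence of elements of `K`. -/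
def Good {A : Subring C(I, ℝ)} {K : Type} [Field K] (O : Subring K) (res : O →+* A)
    (a : ℕ → K) (y : ℝ) : Prop :=
  ∃ (N : ℕ) (f : ℕ → A), (∀ n, N ≤ n → ∃ h : a n ∈ O, res ⟨a n, h⟩ = f n) ∧
    (∀ n, N ≤ n → (f n : C(I, ℝ)) 1 = (f (n + 1) : C(I, ℝ)) 0) ∧
    (∀ ε : ℝ, 0 < ε → ∃ N', ∀ n, N' ≤ n → ∀ s : I, |(f n : C(I, ℝ)) s - y| < ε)

/-- A subgroup of `SL(2, ℝ)` of countable index with a multiplicative family of paths from the
identity to its elements. -/
structure PathGroup (Γ : Subgroup SL(2, ℝ)) (p : Γ →* (I → SL(2, ℝ))) : Prop where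
  countable : Countable (SL(2, ℝ) ⧸ Γ)
  core : ∀ M : SL(2, ℝ), (∀ g : SL(2, ℝ), g * M * g⁻¹ ∈ Γ ∨ -(g * M * g⁻¹) ∈ Γ) →
    M = 1 ∨ M = -1
  neg_one : (-1 : SL(2, ℝ)) ∉ Γ
  cont : ∀ (g : Γ) (i j : Fin 2), Continuous fun t : I => (p g t : Matrix (Fin 2) (Fin 2) ℝ) i j
  zero : ∀ g : Γ, p g 0 = 1
  one : ∀ g : Γ, p g 1 = g

end Pool.Agent.Work.MP_bfb3ed_al
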