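import Mathlib

set_option autoImplicit false

open Polynomial Topology unitInterval

namespace Pool.Agent.Work.MP_bfb3ed_al

/-! ### a countable ring of real algebraic functions on the unit interval -/

/-- extension of a function on `[0,1]` to the line -/
noncomputable def ext (f : C(I, ℝ)) : ℝ → ℝ := fun t => f (Set.projIcc (0:ℝ) 1 zero_le_one t)

lemma ext_coe (f : C(I, ℝ)) (s : I) : ext f (s : ℝ) = f s := by
  unfold ext
  rw [Set.projIcc_val]

lemma ext_of_mem (f : C(I, ℝ)) {t : ℝ} (ht : t ∈ Set.Icc (0:ℝ) 1) : ext f t = f ⟨t, ht⟩ := by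
  unfold ext
  rw [Set.projIcc_of_mem zero_le_one ht]

lemma continuous_ext (f : C(I, ℝ)) : Continuous (ext f) :=
  f.continuous.comp continuous_projIcc

/-- continuous functions on `[0,1]` which are analytic inside -/
noncomputable def An : Subring C(I, ℝ) where
  carrier := {f | AnalyticOnNhd ℝ (ext f) (Set.Ioo 0 1)}
  mul_mem' := fun ha hb => AnalyticOnNhd.mul ha hb
  one_mem' := analyticOnNhd_const
  add_mem' := fun ha hb => AnalyticOnNhd.add ha hb
  zero_mem' := analyticOnNhd_const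
  neg_mem' := fun ha => AnalyticOnNhd.neg ha

lemma mem_An {f : C(I, ℝ)} : f ∈ An ↔ AnalyticOnNhd ℝ (ext f) (Set.Ioo 0 1) := Iff.rfl

/-- a continuous function on `[0,1]` vanishing on the open interval vanishes -/
lemma eq_zero_of_Ioo {f : C(I, ℝ)} (h : ∀ t ∈ Set.Ioo (0:ℝ) 1, ext f t = 0) : f = 0 := by
  have h1 : Set.EqOn (ext f) (fun _ => 0) (closure (Set.Ioo (0:ℝ) 1)) :=
    Set.EqOn.closure (fun t ht => h t ht) (continuous_ext f) continuous_const
  rw [closure_Ioo (by norm_num)] at h1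
  ext s
  have := h1 s.2
  rw [ext_coe] at this
  simpa using this

instance : NoZeroDivisors An where
  eq_zero_or_eq_zero_of_mul_eq_zero := by
    rintro ⟨f, hf⟩ ⟨g, hg⟩ h
    have h' : f * g = 0 := congrArg Subtype.val h
    have hpre : IsPreconnected (Set.Ioo (0:ℝ) 1) := isPreconnected_Ioo
    have key := AnalyticOnNhd.eq_zero_or_eq_zero_of_mul_eq_zero (mem_An.1 hf) (mem_An.1 hg) (by
      intro t ht
      have := DFunLike.congr_fun h' (Set.projIcc (0:ℝ) 1 zero_le_one t)
      exact this) hpre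
    rcases key with h1 | h1
    · left
      exact Subtype.ext (eq_zero_of_Ioo h1)
    · right
      exact Subtype.ext (eq_zero_of_Ioo h1)

instance : Nontrivial An := ⟨⟨0, 1, fun h => by
  have := DFunLike.congr_fun (congrArg Subtype.val h) (0 : I)
  simp at this⟩⟩

instance : IsDomain An := NoZeroDivisors.to_isDomain _

/-- the coordinate function -/
noncomputable def idC : C(I, ℝ) := ⟨fun s => (s : ℝ), continuous_subtype_val⟩

lemma idC_mem : idC ∈ An := by
  rw [mem_An]
  refine AnalyticOnNhd.congr isOpen_Ioo (f := fun t : ℝ => t) analyticOnNhd_id ?_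
  intro t ht
  rw [ext_of_mem _ (Set.Ioo_subset_Icc_self ht)]
  rfl

noncomputable def idAn : An := ⟨idC, idC_mem⟩

noncomputable instance instAlg : Algebra ℤ[X] An :=
  ((Polynomial.aeval (R := ℤ) idAn : ℤ[X] →ₐ[ℤ] An) : ℤ[X] →+* An).toAlgebra

lemma algebraMap_apply' (p : ℤ[X]) : algebraMap ℤ[X] An p = Polynomial.aeval idAn p := rfl

lemma aeval_idAn_apply (p : ℤ[X]) (s : I) :
    ((Polynomial.aeval idAn p : An) : C(I, ℝ)) s = Polynomial.aeval (s : ℝ) p := by
  induction p using Polynomial.induction_on' with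
  | add p q hp hq => simp [hp, hq]
  | monomial n a =>
    simp only [Polynomial.aeval_monomial, algebraMap_int_eq, eq_intCast]
    have : (((a : An) * idAn ^ n : An) : C(I, ℝ)) = (a : C(I, ℝ)) * idC ^ n := by
      push_cast
      rfl
    rw [this]
    simp [idC]

lemma algebraMap_injective : Function.Injective (algebraMap ℤ[X] An) := by
  rw [injective_iff_map_eq_zero]
  intro p hp
  rw [algebraMap_apply'] at hp
  by_contra hne
  have hne' : p.map (Int.castRingHom ℝ) ≠ 0 := by
    rwa [Ne, Polynomial.map_eq_zero_iff (RingHom.injective_int _)]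
  have hinf : (Set.Icc (0:ℝ) 1).Infinite := Set.Icc_infinite (by norm_num)
  refine hinf ((p.map (Int.castRingHom ℝ)).roots.toFinset.finite_toSet.subset ?_)
  intro t ht
  rw [Finset.mem_coe, Multiset.mem_toFinset, Polynomial.mem_roots hne', Polynomial.IsRoot.def,
    Polynomial.eval_map]
  have := aeval_idAn_apply p ⟨t, ht⟩
  rw [hp] at this
  rw [Polynomial.aeval_def] at this
  simpa using this.symm

instance : Module.IsTorsionFree ℤ[X] An := by
  rw [Module.isTorsionFree_iff_algebraMap_injective]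
  exact algebraMap_injective

instance countable_intPoly : Countable ℤ[X] := by
  rw [← Cardinal.mk_le_aleph0_iff]
  refine Polynomial.cardinalMk_le_max.trans ?_
  simp

/-- the ring of algebraic functions -/
noncomputable def S0 : Subalgebra ℤ[X] An := Subalgebra.algebraicClosure ℤ[X] An

lemma mem_S0 {x : An} : x ∈ S0 ↔ IsAlgebraic ℤ[X] x := Iff.rfl

/-- the ring of algebraic functions inside `C([0,1], ℝ)` -/
noncomputable def S : Subring C(I, ℝ) := S0.toSubring.map An.subtype

lemma mem_S {f : C(I, ℝ)} : f ∈ S ↔ ∃ h : f ∈ An, IsAlgebraic ℤ[X] (⟨f, h⟩ : An) := by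
  unfold S
  rw [Subring.mem_map]
  constructor
  · rintro ⟨x, hx, rfl⟩
    exact ⟨x.2, hx⟩
  · rintro ⟨h, h2⟩
    exact ⟨⟨f, h⟩, h2, rfl⟩

lemma S_le_An : S ≤ An := fun _ hf => (mem_S.1 hf).1

instance countable_S : Countable S := by
  have h1 : {x : An | IsAlgebraic ℤ[X] x}.Countable := Algebraic.countable ℤ[X] An
  have h2 : (S : Set C(I, ℝ)) = An.subtype '' {x : An | IsAlgebraic ℤ[X] x} := by
    ext f
    rw [SetLike.mem_coe, mem_S]
    constructor
    · rintro ⟨h, h2⟩
      exact ⟨⟨f, h⟩, h2, rfl⟩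
    · rintro ⟨x, hx, rfl⟩
      exact ⟨x.2, hx⟩
  have h3 : (S : Set C(I, ℝ)).Countable := by
    rw [h2]
    exact h1.image _
  exact h3.to_subtype

instance : NoZeroDivisors S where
  eq_zero_or_eq_zero_of_mul_eq_zero := by
    rintro ⟨f, hf⟩ ⟨g, hg⟩ h
    have h' : f * g = 0 := congrArg Subtype.val h
    have h2 : (⟨f, S_le_An hf⟩ : An) * ⟨g, S_le_An hg⟩ = 0 := Subtype.ext h'
    rcases mul_eq_zero.1 h2 with h3 | h3
    · left
      have h4 : f = 0 := congrArg Subtype.val h3
      exact Subtype.ext h4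
    · right
      have h4 : g = 0 := congrArg Subtype.val h3
      exact Subtype.ext h4

instance : IsDomain S := NoZeroDivisors.to_isDomain _

lemma ratConst_mem (a : ℚ) : (algebraMap ℝ C(I, ℝ) (a : ℝ)) ∈ S := by
  have hAn : (algebraMap ℝ C(I, ℝ) (a : ℝ)) ∈ An := by
    rw [mem_An]
    exact analyticOnNhd_const
  rw [mem_S]
  refine ⟨hAn, ?_⟩
  refine ⟨Polynomial.C (Polynomial.C (a.den : ℤ)) * X - Polynomial.C (Polynomial.C a.num), ?_, ?_⟩
  · intro h
    have h5 := congrArg (fun p => Polynomial.coeff p 1) h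
    simp only [coeff_sub, coeff_C_mul, coeff_X_one, mul_one, coeff_zero] at h5
    rw [Polynomial.coeff_C_succ, sub_zero, Polynomial.C_eq_zero] at h5
    exact a.den_nz (by exact_mod_cast h5)
  · apply Subtype.ext
    ext s
    have h1 : (algebraMap ℤ[X] An (Polynomial.C (a.den : ℤ))) = ((a.den : ℤ) : An) := by
      rw [algebraMap_apply']
      simp
    have h2 : (algebraMap ℤ[X] An (Polynomial.C a.num)) = (a.num : An) := by
      rw [algebraMap_apply']
      simp
    simp only [map_sub, map_mul, Polynomial.aeval_C, Polynomial.aeval_X, h1, h2]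
    have h3 : (a.den : ℝ) * (a : ℝ) = a.num := by
      have := Rat.den_mul_eq_num a
      exact_mod_cast this
    push_cast
    simp [h3]

lemma idC_mem_S : idC ∈ S := by
  rw [mem_S]
  refine ⟨idC_mem, ?_⟩
  have : (⟨idC, idC_mem⟩ : An) = algebraMap ℤ[X] An X := by
    rw [algebraMap_apply']
    simp [idAn]
  rw [this]
  exact isAlgebraic_algebraMap _

/-- linear functions with rational coefficients -/
noncomputable def lin (a b : ℚ) : C(I, ℝ) :=
  algebraMap ℝ C(I, ℝ) (a : ℝ) + algebraMap ℝ C(I, ℝ) (b : ℝ) * idC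

lemma lin_apply (a b : ℚ) (s : I) : lin a b s = a + b * s := by
  simp [lin, idC]

lemma lin_mem (a b : ℚ) : lin a b ∈ S :=
  S.add_mem (ratConst_mem a) (S.mul_mem (ratConst_mem b) idC_mem_S)

/-- inverses of nowhere vanishing functions -/
lemma inv_mem {f : C(I, ℝ)} (hf : f ∈ S) (h0 : ∀ s, f s ≠ 0) : ∃ g ∈ S, f * g = 1 := by
  let g : C(I, ℝ) := ⟨fun s => (f s)⁻¹, f.continuous.inv₀ h0⟩
  have hfg : f * g = 1 := by
    ext s
    show f s * (f s)⁻¹ = 1
    exact mul_inv_cancel₀ (h0 s)
  obtain ⟨hA, hal⟩ := mem_S.1 hf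
  have hgA : g ∈ An := by
    rw [mem_An]
    have : ext g = (ext f)⁻¹ := rfl
    rw [this]
    exact AnalyticOnNhd.inv hA (fun t _ => h0 _)
  refine ⟨g, ?_, hfg⟩
  rw [mem_S]
  refine ⟨hgA, ?_⟩
  let : Invertible (⟨f, hA⟩ : An) := ⟨⟨g, hgA⟩, Subtype.ext ((mul_comm g f).trans hfg),
    Subtype.ext hfg⟩
  exact hal.invOf

/-- evaluation at a point -/
noncomputable def evC (s : I) : C(I, ℝ) →+* ℝ :=
  (Pi.evalRingHom (fun _ : I => ℝ) s).comp ContinuousMap.coeFnRingHom

lemma evC_apply (s : I) (f : C(I, ℝ)) : evC s f = f s := rfl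

/-- the polynomial at a point -/
noncomputable def polyAt (P : Polynomial S) (s : I) : Polynomial ℝ := P.map ((evC s).comp S.subtype)

lemma polyAt_eval (P : Polynomial S) (s : I) (r : C(I, ℝ)) :
    (polyAt P s).eval (r s) = (P.eval₂ S.subtype r) s := by
  have h := Polynomial.hom_eval₂ P S.subtype (evC s) r
  rw [evC_apply, evC_apply] at h
  rw [h, polyAt, Polynomial.eval_map]

lemma polyAt_derivative (P : Polynomial S) (s : I) :
    (polyAt P s).derivative = polyAt P.derivative s := by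
  rw [polyAt, polyAt, Polynomial.derivative_map]

/-- the two variable function attached to a polynomial over `S` -/
noncomputable def Fn (P : Polynomial S) (v : ℝ × ℝ) : ℝ :=
  ∑ i ∈ Finset.range (P.natDegree + 1), ext (P.coeff i : C(I, ℝ)) v.1 * v.2 ^ i

lemma Fn_eq (P : Polynomial S) (s : I) (y : ℝ) : Fn P ((s : ℝ), y) = (polyAt P s).eval y := by
  rw [polyAt, Polynomial.eval_map, Polynomial.eval₂_eq_sum_range]
  unfold Fn
  refine Finset.sum_congr rfl (fun i _ => ?_)
  rw [ext_coe]
  rfl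

/-- roots -/
lemma root_mem (P : Polynomial S) (hP : P.Monic) (r : C(I, ℝ)) (h1 : P.eval₂ S.subtype r = 0)
    (h2 : ∀ s, (P.derivative.eval₂ S.subtype r) s ≠ 0) : r ∈ S := by
  have hA : r ∈ An := by
    rw [mem_An]
    intro t ht
    set s : I := ⟨t, Set.Ioo_subset_Icc_self ht⟩ with hs
    have hst : (s : ℝ) = t := rfl
    set u : ℝ × ℝ := (t, ext r t) with hu
    have hrs : ext r t = r s := by rw [← hst, ext_coe]
    have cdf : ContDiffAt ℝ ⊤ (Fn P) u := by
      unfold Fn
      refine ContDiffAt.sum (fun i _ => ?_)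
      have ha : ContDiffAt ℝ ⊤ (ext (P.coeff i : C(I, ℝ))) u.1 :=
        ((mem_An.1 (S_le_An (P.coeff i).2)) t ht).contDiffAt
      exact (ha.comp u contDiffAt_fst).mul (contDiffAt_snd.pow i)
    have pn : (⊤ : WithTop ℕ∞) ≠ 0 := by simp
    set c : ℝ := (polyAt P s).derivative.eval (r s) with hc
    have hc0 : c ≠ 0 := by
      rw [hc, polyAt_derivative, polyAt_eval]
      exact h2 s
    have hd : HasDerivAt (fun y => Fn P (t, y)) c (r s) := by
      have h3 : (fun y => Fn P (t, y)) = fun y => (polyAt P s).eval y := by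
        funext y
        rw [← hst, Fn_eq]
      rw [h3]
      exact (polyAt P s).hasDerivAt (r s)
    have hfd : HasFDerivAt (Fn P) (fderiv ℝ (Fn P) u) u := (cdf.differentiableAt pn).hasFDerivAt
    have hinr : HasFDerivAt (fun y : ℝ => ((t, y) : ℝ × ℝ)) (.inr ℝ ℝ ℝ) (r s) := by
      exact hasFDerivAt_prodMk_right t (r s)
    have hcomp : HasFDerivAt (fun y => Fn P (t, y)) (fderiv ℝ (Fn P) u ∘L .inr ℝ ℝ ℝ) (r s) := by
      have := HasFDerivAt.comp (r s) (g := Fn P) (f := fun y : ℝ => ((t, y) : ℝ × ℝ)) (by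
        rw [← hrs]; exact hfd) hinr
      exact this
    have if₂ : (fderiv ℝ (Fn P) u ∘L .inr ℝ ℝ ℝ).IsInvertible := by
      have h4 := hcomp.unique hd.hasFDerivAt
      rw [h4]
      refine ⟨ContinuousLinearEquiv.unitsEquivAut ℝ (Units.mk0 c hc0), ?_⟩
      ext
      simp
    have hev := cdf.eventually_apply_eq_iff_implicitFunction pn if₂
    have hcd := cdf.contDiffAt_implicitFunction pn if₂
    set ψ := cdf.implicitFunction pn if₂ with hψ
    have htend : Filter.Tendsto (fun x : ℝ => ((x, ext r x) : ℝ × ℝ)) (𝓝 t) (𝓝 u) :=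
      (continuous_id.prodMk (continuous_ext r)).continuousAt
    have hev2 := htend.eventually hev
    have hzero : ∀ x ∈ Set.Ioo (0:ℝ) 1, Fn P (x, ext r x) = 0 := by
      intro x hx
      have h5 := Fn_eq P ⟨x, Set.Ioo_subset_Icc_self hx⟩ (ext r x)
      rw [ext_of_mem r (Set.Ioo_subset_Icc_self hx), polyAt_eval, h1] at h5
      rw [ext_of_mem r (Set.Ioo_subset_Icc_self hx)]
      simpa using h5
    have hev3 : ψ =ᶠ[𝓝 t] ext r := by
      filter_upwards [hev2, isOpen_Ioo.mem_nhds ht] with x hx hx2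
      exact hx.1 ((hzero x hx2).trans (hzero t ht).symm)
    have h6 : ContDiffAt ℝ ⊤ (ext r) t := hcd.congr_of_eventuallyEq hev3.symm
    exact h6.analyticAt
  rw [mem_S]
  refine ⟨hA, ?_⟩
  have h3 : IsAlgebraic S0 (⟨r, hA⟩ : An) := by
    let φ : S →+* S0 := 
      { toFun := fun x => ⟨⟨x.1, S_le_An x.2⟩, (mem_S.1 x.2).2⟩
        map_one' := rfl
        map_mul' := fun _ _ => rfl
        map_zero' := rfl
        map_add' := fun _ _ => rfl }
    refine ⟨P.map φ, (hP.map φ).ne_zero, ?_⟩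
    apply Subtype.ext
    rw [Polynomial.aeval_def, Polynomial.eval₂_map]
    have h7 := Polynomial.hom_eval₂ P ((algebraMap S0 An).comp φ) An.subtype ⟨r, hA⟩
    have h8 : An.subtype.comp ((algebraMap S0 An).comp φ) = S.subtype := by
      ext x
      rfl
    rw [h8] at h7
    exact h7.trans h1
  have : Algebra.IsAlgebraic ℤ[X] S0 :=
    inferInstanceAs (Algebra.IsAlgebraic ℤ[X] (Subalgebra.algebraicClosure ℤ[X] An))
  exact h3.restrictScalars ℤ[X]

end Pool.Agent.Work.MP_bfb3ed_al
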